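import Mathlib

section

/-!
Realisation of a unimodal cyclic order pattern by the critical orbit of a real quadratic map.
-/

namespace Pool.Agent.MP_a0c272_an

open Filter Topology Set

/-- The real quadratic map. -/
def q (c x : ℝ) : ℝ := x ^ 2 + c

/-- A unimodal cyclic order pattern of period `N`. -/
structure IsModel (N : ℕ) (M : ℕ → ℝ) : Prop where
  zero : M 0 = 0
  eq_iff : ∀ k l, M k = M l ↔ k ≡ l [MOD N]
  neg : ∀ k l, M k < M l → M l ≤ 0 → M (l + 1) < M (k + 1)
  pos : ∀ k l, 0 ≤ M k → M k < M l → M (k + 1) < M (l + 1)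

/-- A sign. -/
noncomputable def sg (x : ℝ) : ℝ := if 0 < x then 1 else -1

lemma sg_pos {x : ℝ} (h : 0 < x) : sg x = 1 := by simp [sg, h]
lemma sg_neg {x : ℝ} (h : x ≤ 0) : sg x = -1 := by simp [sg, not_lt.2 h]
lemma sg_cases (x : ℝ) : sg x = 1 ∨ sg x = -1 := by unfold sg; split_ifs <;> simp
lemma sg_sq (x : ℝ) : sg x ^ 2 = 1 := by rcases sg_cases x with h | h <;> simp [h]

/-- The backward orbit of `0` along the itinerary of the pattern. -/
noncomputable def back (N : ℕ) (M : ℕ → ℝ) (c : ℝ) : ℕ → ℝ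
  | 0 => 0
  | r + 1 => sg (M (N - (r + 1))) * √(back N M c r - c)

lemma continuous_back (N : ℕ) (M : ℕ → ℝ) (r : ℕ) : Continuous fun c => back N M c r := by
  induction r with
  | zero => simpa [back] using continuous_const
  | succ r ih =>
    simp only [back]
    exact continuous_const.mul ((ih.sub continuous_id).sqrt)

lemma abs_back_le (N : ℕ) (M : ℕ → ℝ) {c : ℝ} (hc : -2 ≤ c) (r : ℕ) : |back N M c r| ≤ 2 := by
  induction r with
  | zero => simp [back]
  | succ r ih =>
    have h1 : √(back N M c r - c) ≤ 2 := by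
      rw [Real.sqrt_le_iff]
      constructor
      · norm_num
      · have := (abs_le.1 ih).2; nlinarith
    have h0 := Real.sqrt_nonneg (back N M c r - c)
    simp only [back]
    rcases sg_cases (M (N - (r + 1))) with h | h <;> rw [h, abs_le] <;> constructor <;> linarith

lemma abs_back_lt (N : ℕ) (M : ℕ → ℝ) (r : ℕ) : |back N M (-2) r| < 2 := by
  induction r with
  | zero => simp [back]
  | succ r ih =>
    have h1 : √(back N M (-2) r - (-2)) < 2 := by
      rw [Real.sqrt_lt' (by norm_num)]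
      have := (abs_lt.1 ih).2; nlinarith
    have h0 := Real.sqrt_nonneg (back N M (-2) r - (-2))
    simp only [back]
    rcases sg_cases (M (N - (r + 1))) with h | h <;> rw [h, abs_lt] <;> constructor <;> linarith

/-- The `k`-th point of the backward orbit. -/
noncomputable def yy (N : ℕ) (M : ℕ → ℝ) (c : ℝ) (k : ℕ) : ℝ := back N M c (N - k)

lemma yy_N (N : ℕ) (M : ℕ → ℝ) (c : ℝ) : yy N M c N = 0 := by simp [yy, back]

lemma yy_step (N : ℕ) (M : ℕ → ℝ) (c : ℝ) {k : ℕ} (hk : k < N) :
    yy N M c k = sg (M k) * √(yy N M c (k + 1) - c) := by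
  have h1 : N - k = (N - (k + 1)) + 1 := by omega
  have h2 : N - (N - (k + 1) + 1) = k := by omega
  unfold yy
  rw [h1, back, h2]

lemma yy_sq (N : ℕ) (M : ℕ → ℝ) (c : ℝ) {k : ℕ} (hk : k < N) (h : c ≤ yy N M c (k + 1)) :
    q c (yy N M c k) = yy N M c (k + 1) := by
  rw [yy_step N M c hk, q, mul_pow, sg_sq, Real.sq_sqrt (by linarith)]
  ring

lemma continuous_yy (N : ℕ) (M : ℕ → ℝ) (k : ℕ) : Continuous fun c => yy N M c k :=
  continuous_back N M _

variable {N : ℕ} {M : ℕ → ℝ}

lemma IsModel.at_N (h : IsModel N M) : M N = 0 := by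
  rw [← h.zero, h.eq_iff]; simp [Nat.ModEq]

lemma IsModel.ne_zero (h : IsModel N M) {k : ℕ} (h1 : 1 ≤ k) (h2 : k < N) : M k ≠ 0 := by
  intro h0
  rw [← h.zero, h.eq_iff] at h0
  have := (Nat.modEq_zero_iff_dvd.1 h0)
  have := Nat.le_of_dvd (by omega) this
  omega

lemma IsModel.min_one (h : IsModel N M) (l : ℕ) (hl : M l ≠ 0) : M 1 < M (l + 1) := by
  rcases lt_or_gt_of_ne hl with h1 | h1
  · exact h.neg l 0 (by rw [h.zero]; exact h1) (by rw [h.zero])
  · exact h.pos 0 l (by rw [h.zero]) (by rw [h.zero]; exact h1)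

lemma yy_order (h : IsModel N M) {c : ℝ} (hc : ∀ k, 2 ≤ k → k ≤ N → c < yy N M c k) :
    ∀ k l, 1 ≤ k → k ≤ N → 1 ≤ l → l ≤ N → M k < M l → yy N M c k < yy N M c l := by
  have hpos : ∀ k, 1 ≤ k → k ≤ N → 0 < M k → 0 < yy N M c k := by
    intro k h1 h2 h3
    have hk : k < N := lt_of_le_of_ne h2 (fun e => by rw [e, h.at_N] at h3; exact lt_irrefl _ h3)
    rw [yy_step N M c hk, sg_pos h3, one_mul]
    exact Real.sqrt_pos.2 (by linarith [hc (k + 1) (by omega) (by omega)])
  have hneg : ∀ k, 1 ≤ k → k ≤ N → M k < 0 → yy N M c k < 0 := by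
    intro k h1 h2 h3
    have hk : k < N := lt_of_le_of_ne h2 (fun e => by rw [e, h.at_N] at h3; exact lt_irrefl _ h3)
    rw [yy_step N M c hk, sg_neg h3.le]
    have := Real.sqrt_pos.2 (show 0 < yy N M c (k + 1) - c by
      linarith [hc (k + 1) (by omega) (by omega)])
    linarith
  have hzero : ∀ k, 1 ≤ k → k ≤ N → M k = 0 → yy N M c k = 0 := by
    intro k h1 h2 h3
    have hk : k = N := by
      by_contra hne
      exact h.ne_zero h1 (by omega) h3
    rw [hk, yy_N]
  have key : ∀ d k l, 1 ≤ k → k ≤ N → 1 ≤ l → l ≤ N → N ≤ k + d → M k ≠ M l →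
      (M k < M l → yy N M c k < yy N M c l) ∧ (M l < M k → yy N M c l < yy N M c k) := by
    intro d
    induction d with
    | zero =>
      intro k l h1 h2 h3 h4 h5 _
      have hk : k = N := by omega
      subst hk
      rw [h.at_N, yy_N]
      exact ⟨hpos l h3 h4, hneg l h3 h4⟩
    | succ d ih =>
      intro k l h1 h2 h3 h4 h5 hne
      have main : ∀ a b, 1 ≤ a → a ≤ N → 1 ≤ b → b ≤ N →
          (a < N → b < N → (M (a + 1) < M (b + 1) → yy N M c (a + 1) < yy N M c (b + 1)) ∧
            (M (b + 1) < M (a + 1) → yy N M c (b + 1) < yy N M c (a + 1))) →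
          M a < M b → yy N M c a < yy N M c b := by
        intro a b ha1 ha2 hb1 hb2 hab hlt
        rcases lt_trichotomy (M a) 0 with ha | ha | ha
        · rcases lt_trichotomy (M b) 0 with hb | hb | hb
          · have haN : a < N :=
              lt_of_le_of_ne ha2 (fun e => by rw [e, h.at_N] at ha; exact lt_irrefl _ ha)
            have hbN : b < N :=
              lt_of_le_of_ne hb2 (fun e => by rw [e, h.at_N] at hb; exact lt_irrefl _ hb)
            have := (hab haN hbN).2 (h.neg a b hlt hb.le)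
            rw [yy_step N M c haN, yy_step N M c hbN, sg_neg ha.le, sg_neg hb.le]
            have := Real.sqrt_lt_sqrt (x := yy N M c (b + 1) - c) (y := yy N M c (a + 1) - c)
              (by linarith [hc (b + 1) (by omega) (by omega)]) (by linarith)
            linarith
          · rw [hzero b hb1 hb2 hb]; exact hneg a ha1 ha2 ha
          · linarith [hneg a ha1 ha2 ha, hpos b hb1 hb2 hb]
        · rw [hzero a ha1 ha2 ha]; exact hpos b hb1 hb2 (by linarith)
        · have hb : 0 < M b := by linarith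
          have haN : a < N :=
            lt_of_le_of_ne ha2 (fun e => by rw [e, h.at_N] at ha; exact lt_irrefl _ ha)
          have hbN : b < N :=
            lt_of_le_of_ne hb2 (fun e => by rw [e, h.at_N] at hb; exact lt_irrefl _ hb)
          have := (hab haN hbN).1 (h.pos a b ha.le hlt)
          rw [yy_step N M c haN, yy_step N M c hbN, sg_pos ha, sg_pos hb]
          have := Real.sqrt_lt_sqrt (x := yy N M c (a + 1) - c) (y := yy N M c (b + 1) - c)
            (by linarith [hc (a + 1) (by omega) (by omega)]) (by linarith)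
          linarith
      have hstep : k < N → l < N →
          (M (k + 1) < M (l + 1) → yy N M c (k + 1) < yy N M c (l + 1)) ∧
            (M (l + 1) < M (k + 1) → yy N M c (l + 1) < yy N M c (k + 1)) := by
        intro hk hl
        refine ih (k + 1) (l + 1) (by omega) (by omega) (by omega) (by omega) (by omega) ?_
        intro e
        apply hne
        rw [h.eq_iff] at e ⊢
        exact Nat.ModEq.add_right_cancel' 1 e
      exact ⟨main k l h1 h2 h3 h4 hstep,
        main l k h3 h4 h1 h2 (fun a b => (hstep b a).symm)⟩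
  intro k l h1 h2 h3 h4 hlt
  exact (key N k l h1 h2 h3 h4 (by omega) hlt.ne).1 hlt

/-- The difference quotient of an iterate. -/
noncomputable def dq (c u v : ℝ) (r : ℕ) : ℝ :=
  ∏ i ∈ Finset.range r, ((q c)^[i] u + (q c)^[i] v)

lemma iter_sub (c u v : ℝ) (r : ℕ) : (q c)^[r] u - (q c)^[r] v = (u - v) * dq c u v r := by
  induction r with
  | zero => simp [dq]
  | succ r ih =>
    rw [Function.iterate_succ_apply', Function.iterate_succ_apply', dq, Finset.prod_range_succ,
      ← mul_assoc]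
    unfold dq at ih
    rw [← ih]
    simp only [q]; ring

lemma tendsto_iter {α : Type*} {l : Filter α} {c u : α → ℝ} {c0 u0 : ℝ}
    (hc : Tendsto c l (𝓝 c0)) (hu : Tendsto u l (𝓝 u0)) (r : ℕ) :
    Tendsto (fun a => (q (c a))^[r] (u a)) l (𝓝 ((q c0)^[r] u0)) := by
  induction r with
  | zero => simpa using hu
  | succ r ih =>
    simp only [Function.iterate_succ_apply', q]
    exact (ih.pow 2).add hc

lemma tendsto_dq {α : Type*} {l : Filter α} {c u v : α → ℝ} {c0 u0 v0 : ℝ}
    (hc : Tendsto c l (𝓝 c0)) (hu : Tendsto u l (𝓝 u0)) (hv : Tendsto v l (𝓝 v0)) (r : ℕ) :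
    Tendsto (fun a => dq (c a) (u a) (v a) r) l (𝓝 (dq c0 u0 v0 r)) :=
  tendsto_finsetProd _ fun i _ => (tendsto_iter hc hu i).add (tendsto_iter hc hv i)

lemma yy_iter (N : ℕ) (M : ℕ → ℝ) (c : ℝ) (hc : ∀ k, 2 ≤ k → k ≤ N → c ≤ yy N M c k)
    {k : ℕ} (hk : 1 ≤ k) (r : ℕ) (hr : k + r ≤ N) :
    (q c)^[r] (yy N M c k) = yy N M c (k + r) := by
  induction r with
  | zero => simp
  | succ r ih =>
    rw [Function.iterate_succ_apply', ih (by omega),
      yy_sq N M c (by omega) (hc _ (by omega) (by omega))]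
    rfl

end Pool.Agent.MP_a0c272_an

end

section

/-!
The realisation theorem.
-/

namespace Pool.Agent.MP_a0c272_an

open Filter Topology Set Function

variable {N : ℕ} {M : ℕ → ℝ}

lemma yy_eq_iter {c0 : ℝ} (h1 : yy N M c0 1 = c0) (hge : ∀ k, 1 ≤ k → k ≤ N → c0 ≤ yy N M c0 k)
    {k : ℕ} (hk1 : 1 ≤ k) (hk : k ≤ N) : (q c0)^[k] 0 = yy N M c0 k := by
  obtain ⟨r, rfl⟩ : ∃ r, k = r + 1 := ⟨k - 1, by omega⟩
  rw [iterate_succ_apply, show q c0 0 = yy N M c0 1 by simp [q, h1],
    yy_iter N M c0 (fun k a b => hge k (by omega) b) le_rfl r (by omega), add_comm]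

lemma nondeg (h : IsModel N M) {c0 : ℝ} (hc0 : -2 < c0)
    (hgood : ∀ c, -2 ≤ c → c < c0 → ∀ k, 1 ≤ k → k ≤ N → c < yy N M c k)
    (h1 : yy N M c0 1 = c0) (hge : ∀ k, 1 ≤ k → k ≤ N → c0 ≤ yy N M c0 k) :
    ∀ k, 2 ≤ k → k ≤ N → c0 < yy N M c0 k := by
  intro k0 hk2 hkN
  by_contra hcon
  have hk0 : yy N M c0 k0 = c0 := le_antisymm (not_lt.1 hcon) (hge k0 (by omega) hkN)
  have hN : (q c0)^[N] 0 = 0 := by rw [yy_eq_iter h1 hge (by omega) le_rfl, yy_N]
  have hk0' : (q c0)^[k0 - 1] 0 = 0 := by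
    have := yy_sq N M c0 (k := k0 - 1) (by omega)
      (hge _ (by omega) (by omega))
    rw [show k0 - 1 + 1 = k0 by omega, hk0, q] at this
    rw [yy_eq_iter h1 hge (by omega) (by omega)]
    exact pow_eq_zero_iff (two_ne_zero) |>.1 (by linarith)
  set p := minimalPeriod (q c0) 0 with hp
  have hper : IsPeriodicPt (q c0) N 0 := hN
  have hper' : IsPeriodicPt (q c0) (k0 - 1) 0 := hk0'
  have hp0 : 0 < p := hper.minimalPeriod_pos (by omega)
  have hple : p ≤ k0 - 1 := hper'.minimalPeriod_le (by omega)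
  obtain ⟨n, hn⟩ : p ∣ N := hper.minimalPeriod_dvd
  have hn2 : 2 ≤ n := by
    by_contra hlt
    have : n ≤ 1 := by omega
    have : p * n ≤ p * 1 := Nat.mul_le_mul_left _ this
    omega
  have hpp : (q c0)^[p] 0 = 0 := isPeriodicPt_minimalPeriod (q c0) 0
  have hjp : ∀ j, (q c0)^[j * p] 0 = 0 := fun j =>
    (isPeriodicPt_minimalPeriod (q c0) 0).const_mul j
  have hq0 : q c0 0 = c0 := by simp [q]
  set D0 := dq c0 c0 c0 (p - 1) with hD0
  have hD0ne : D0 ≠ 0 := by
    rw [hD0, dq, Finset.prod_ne_zero_iff]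
    intro i hi
    rw [Finset.mem_range] at hi
    have : (q c0)^[i + 1] 0 ≠ 0 :=
      not_isPeriodicPt_of_pos_of_lt_minimalPeriod (f := q c0) (x := 0) (by omega) (by omega)
    rw [iterate_succ_apply, hq0] at this
    intro e
    exact this (by linarith)
  set σ := sg D0 with hσ
  have hσD : 0 < σ * D0 := by
    rcases lt_or_gt_of_ne hD0ne with e | e
    · rw [hσ, sg_neg e.le]; linarith
    · rw [hσ, sg_pos e]; linarith
  have hσ2 : σ ^ 2 = 1 := sg_sq _
  set K := σ * D0 + 1 with hK
  have hjle : ∀ j, j < n → j * p + p ≤ N := by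
    intro j hj
    have : (j + 1) * p ≤ n * p := Nat.mul_le_mul_right _ hj
    rw [hn]; nlinarith
  let l := 𝓝[<] c0
  have hid : Tendsto (fun c : ℝ => c) l (𝓝 c0) := tendsto_nhdsWithin_of_tendsto_nhds tendsto_id
  have hu : ∀ j, j < n → Tendsto (fun c => yy N M c (j * p + 1)) l (𝓝 c0) := by
    intro j hj
    have e : yy N M c0 (j * p + 1) = c0 := by
      rw [← yy_eq_iter h1 hge (by omega) (by have := hjle j hj; omega), iterate_succ_apply',
        hjp, hq0]
    have := ((continuous_yy N M (j * p + 1)).tendsto c0)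
    rw [e] at this
    exact tendsto_nhdsWithin_of_tendsto_nhds this
  have ea : ∀ᶠ c in l, -2 ≤ c ∧ c < c0 := by
    filter_upwards [self_mem_nhdsWithin, hid.eventually (lt_mem_nhds hc0)] with c a b
    exact ⟨b.le, a⟩
  have eb : ∀ᶠ c in l, ∀ j ∈ Finset.range n,
      0 < σ * dq c (yy N M c (j * p + 1)) c (p - 1) ∧
        σ * dq c (yy N M c (j * p + 1)) c (p - 1) < K := by
    rw [eventually_all_finset]
    intro j hj
    have := (tendsto_dq hid (hu j (Finset.mem_range.1 hj)) hid (p - 1)).const_mul σ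
    exact (this.eventually (lt_mem_nhds hσD)).and
      (this.eventually (gt_mem_nhds (by rw [hK]; linarith)))
  have ec : ∀ᶠ c in l,
      0 < σ * dq c (yy N M c ((n - 1) * p + 1)) (yy N M c (0 * p + 1)) (p - 1) :=
    ((tendsto_dq hid (hu (n - 1) (by omega)) (hu 0 (by omega)) (p - 1)).const_mul σ).eventually
      (lt_mem_nhds hσD)
  have ed : ∀ᶠ c in l, K * (-(σ * (q c)^[p - 1] c)) < 1 := by
    have e : (q c0)^[p - 1] c0 = 0 := by
      have := hpp
      rw [show p = p - 1 + 1 by omega, iterate_succ_apply, hq0] at this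
      exact this
    have := (((tendsto_iter hid hid (p - 1)).const_mul σ).neg).const_mul K
    rw [e] at this
    exact this.eventually (gt_mem_nhds (by simp))
  obtain ⟨c, ⟨hca, hcb⟩, hb, hc, hd⟩ := (ea.and (eb.and (ec.and ed))).exists
  have hg := hgood c hca hcb
  have hit : ∀ j, j < n → (q c)^[p - 1] (yy N M c (j * p + 1)) = yy N M c ((j + 1) * p) := by
    intro j hj
    have := hjle j hj
    rw [yy_iter N M c (fun k a b => (hg k (by omega) b).le) (by omega) (p - 1) (by omega)]
    congr 1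
    rw [add_mul]; omega
  set μ := σ * (q c)^[p - 1] c with hμ
  have hZ : ∀ j, j < n → σ * yy N M c ((j + 1) * p) - μ =
      (yy N M c (j * p + 1) - c) * (σ * dq c (yy N M c (j * p + 1)) c (p - 1)) := by
    intro j hj
    have := iter_sub c (yy N M c (j * p + 1)) c (p - 1)
    rw [hit j hj] at this
    rw [hμ, ← mul_sub, this]; ring
  have hZpos : ∀ j, j < n → μ < σ * yy N M c ((j + 1) * p) := by
    intro j hj
    have a := hZ j hj
    have b := (hb j (Finset.mem_range.2 hj)).1
    have d := hg (j * p + 1) (by omega) (by have := hjle j hj; omega)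
    have := mul_pos (sub_pos.2 d) b
    linarith
  have hnp : (n - 1 + 1) * p = N := by
    rw [show n - 1 + 1 = n by omega, hn, mul_comm]
  have hμneg : μ < 0 := by
    have := hZpos (n - 1) (by omega)
    rwa [hnp, yy_N, mul_zero] at this
  have hdown : ∀ d, d < n → 0 ≤ σ * yy N M c ((n - d) * p) := by
    intro d
    induction d with
    | zero => intro _; rw [Nat.sub_zero, mul_comm n p, ← hn, yy_N, mul_zero]
    | succ d ih =>
      intro hd'
      have ih' := ih (by omega)
      set j := n - (d + 1) with hj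
      have hj1 : 1 ≤ j := by omega
      have hjn : j < n := by omega
      rw [show n - d = j + 1 by omega] at ih'
      have a := hZ j hjn
      have b := hb j (Finset.mem_range.2 hjn)
      have e := hZpos (j - 1) (by omega)
      rw [show j - 1 + 1 = j by omega] at e
      have hjp1 : 1 ≤ j * p := Nat.mul_pos hj1 hp0
      have hsq := yy_sq N M c (k := j * p) (by have := hjle j hjn; omega)
        (hg _ (by omega) (by have := hjle j hjn; omega)).le
      rw [← hsq, q] at a
      set Z := σ * yy N M c (j * p) with hZdef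
      have hZ2 : yy N M c (j * p) ^ 2 = Z ^ 2 := by rw [hZdef, mul_pow, hσ2, one_mul]
      rw [← hsq, q] at b
      set E := σ * dq c (yy N M c (j * p) ^ 2 + c) c (p - 1) with hE
      rw [hZ2] at a
      by_contra hneg
      have hneg : Z < 0 := not_le.1 hneg
      have h5 : Z ^ 2 ≤ μ ^ 2 := by nlinarith
      have h6 : -μ ≤ Z ^ 2 * E := by nlinarith
      have h7 : Z ^ 2 * E ≤ μ ^ 2 * K := by
        have := b.1; have := b.2
        have := sq_nonneg Z
        nlinarith
      nlinarith
  have hZ1 := hdown (n - 1) (by omega)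
  rw [show n - (n - 1) = 1 by omega] at hZ1
  have hsub := iter_sub c (yy N M c ((n - 1) * p + 1)) (yy N M c (0 * p + 1)) (p - 1)
  rw [hit (n - 1) (by omega), hit 0 (by omega), hnp, yy_N] at hsub
  have hnp1 : 1 ≤ (n - 1) * p := Nat.mul_pos (by omega) hp0
  have hle := hjle (n - 1) (by omega)
  have hord : yy N M c (0 * p + 1) < yy N M c ((n - 1) * p + 1) := by
    rw [zero_mul, zero_add]
    exact yy_order h (fun k a b => hg k (by omega) b) _ _ le_rfl (by omega) (by omega) (by omega)
      (h.min_one _ (h.ne_zero hnp1 (by omega)))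
  have := mul_pos (sub_pos.2 hord) hc
  rw [zero_add] at hsub
  have e2 : (yy N M c ((n - 1) * p + 1) - yy N M c (0 * p + 1)) *
      (σ * dq c (yy N M c ((n - 1) * p + 1)) (yy N M c (0 * p + 1)) (p - 1)) =
      -(σ * yy N M c (1 * p)) := by
    have : σ * (0 - yy N M c (1 * p)) = σ * ((yy N M c ((n - 1) * p + 1) - yy N M c (0 * p + 1)) *
      dq c (yy N M c ((n - 1) * p + 1)) (yy N M c (0 * p + 1)) (p - 1)) := by rw [hsub]
    linarith
  linarith

theorem realize (hN : 2 ≤ N) (h : IsModel N M) :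
    ∃ c : ℝ, -2 < c ∧ (∀ k, |(q c)^[k] 0| ≤ 2) ∧
      ∀ k l, (M k < M l ↔ (q c)^[k] 0 < (q c)^[l] 0) := by
  let S : Set ℝ := {c | -2 ≤ c ∧ ∃ k ∈ Finset.Icc 1 N, yy N M c k ≤ c}
  have hSc : IsClosed S := by
    have : S = Ici (-2) ∩ ⋃ k ∈ Finset.Icc 1 N, {c | yy N M c k ≤ c} := by
      ext c; simp [S]
    rw [this]
    exact isClosed_Ici.inter (isClosed_biUnion_finset fun k _ =>
      isClosed_le (continuous_yy N M k) continuous_id)
  have hS0 : (0 : ℝ) ∈ S := ⟨by norm_num, N, by simp; omega, by rw [yy_N]⟩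
  have hSb : BddBelow S := ⟨-2, fun c hc => hc.1⟩
  set c0 := sInf S with hc0
  have hmem : c0 ∈ S := hSc.csInf_mem ⟨0, hS0⟩ hSb
  have hgt : -2 < c0 := by
    refine lt_of_le_of_ne hmem.1 (fun e => ?_)
    obtain ⟨k, -, hk⟩ := hmem.2
    rw [← e] at hk
    have := (abs_lt.1 (abs_back_lt N M (N - k))).1
    exact absurd hk (not_le.2 this)
  have hgood : ∀ c, -2 ≤ c → c < c0 → ∀ k, 1 ≤ k → k ≤ N → c < yy N M c k := by
    intro c h1 h2 k h3 h4
    by_contra hcon
    exact absurd (csInf_le hSb ⟨h1, k, Finset.mem_Icc.2 ⟨h3, h4⟩, not_lt.1 hcon⟩) (not_le.2 h2)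
  let l := 𝓝[<] c0
  have hid : Tendsto (fun c : ℝ => c) l (𝓝 c0) := tendsto_nhdsWithin_of_tendsto_nhds tendsto_id
  have hy : ∀ k, Tendsto (fun c => yy N M c k) l (𝓝 (yy N M c0 k)) := fun k =>
    tendsto_nhdsWithin_of_tendsto_nhds ((continuous_yy N M k).tendsto c0)
  have ea : ∀ᶠ c in l, -2 ≤ c ∧ c < c0 := by
    filter_upwards [self_mem_nhdsWithin, hid.eventually (lt_mem_nhds hgt)] with c a b
    exact ⟨b.le, a⟩
  have hge : ∀ k, 1 ≤ k → k ≤ N → c0 ≤ yy N M c0 k := fun k h1 h2 =>
    le_of_tendsto_of_tendsto hid (hy k) (ea.mono fun c hc => (hgood c hc.1 hc.2 k h1 h2).le)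
  have h1 : yy N M c0 1 = c0 := by
    refine le_antisymm ?_ (hge 1 le_rfl (by omega))
    obtain ⟨k, hk, hk'⟩ := hmem.2
    rw [Finset.mem_Icc] at hk
    refine le_trans ?_ hk'
    rcases Nat.eq_or_lt_of_le hk.1 with e | e
    · rw [← e]
    · refine le_of_tendsto_of_tendsto (hy 1) (hy k) (ea.mono fun c hc => ?_)
      refine (yy_order h (fun k a b => hgood c hc.1 hc.2 k (by omega) b) 1 k le_rfl (by omega)
        hk.1 hk.2 ?_).le
      have := h.min_one (k - 1) (h.ne_zero (by omega) (by omega))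
      rwa [show k - 1 + 1 = k by omega] at this
  have hnd := nondeg h hgt hgood h1 hge
  have hNN : (q c0)^[N] 0 = 0 := by rw [yy_eq_iter h1 hge (by omega) le_rfl, yy_N]
  have hper : IsPeriodicPt (q c0) N 0 := hNN
  have hmod : ∀ k l, k ≡ l [MOD N] → (q c0)^[k] 0 = (q c0)^[l] 0 := by
    intro k l e
    rw [← hper.iterate_mod_apply k, ← hper.iterate_mod_apply l, e]
  have hrep : ∀ k, ∃ k', 1 ≤ k' ∧ k' ≤ N ∧ k ≡ k' [MOD N] := by
    intro k
    by_cases e : k % N = 0
    · exact ⟨N, by omega, le_rfl, by simp [Nat.ModEq, e]⟩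
    · exact ⟨k % N, by omega, (Nat.mod_lt _ (by omega)).le, (Nat.mod_modEq k N).symm⟩
  have hfw : ∀ k l, M k < M l → (q c0)^[k] 0 < (q c0)^[l] 0 := by
    intro k l hlt
    obtain ⟨k', a1, a2, a3⟩ := hrep k
    obtain ⟨l', b1, b2, b3⟩ := hrep l
    rw [hmod k k' a3, hmod l l' b3, yy_eq_iter h1 hge a1 a2, yy_eq_iter h1 hge b1 b2]
    refine yy_order h hnd _ _ a1 a2 b1 b2 ?_
    rwa [← (h.eq_iff _ _).2 a3, ← (h.eq_iff _ _).2 b3]
  refine ⟨c0, hgt, fun k => ?_, fun k l => ⟨hfw k l, fun hlt => ?_⟩⟩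
  · obtain ⟨k', a1, a2, a3⟩ := hrep k
    rw [hmod k k' a3, yy_eq_iter h1 hge a1 a2]
    exact abs_back_le N M hgt.le _
  · rcases lt_trichotomy (M k) (M l) with e | e | e
    · exact e
    · rw [hmod k l ((h.eq_iff _ _).1 e)] at hlt; exact absurd hlt (lt_irrefl _)
    · exact absurd (hfw l k e) (not_lt.2 hlt.le)

end Pool.Agent.MP_a0c272_an

end

section

/-!
The pattern of the airplane tuned with itself `m` times.
-/

namespace Pool.Agent.MP_a0c272_an

/-- Tuning a pattern with the airplane. -/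
noncomputable def tune (M : ℕ → ℝ) (k : ℕ) : ℝ :=
  if k % 3 = 0 then -(M (k / 3) / 8)
  else if k % 3 = 1 then -2 + M (k / 3 + 1) / 8 else 1 - M (k / 3 + 1) / 8

lemma tune0 (M : ℕ → ℝ) (a : ℕ) : tune M (3 * a) = -(M a / 8) := by
  simp [tune]

lemma tune1 (M : ℕ → ℝ) (a : ℕ) : tune M (3 * a + 1) = -2 + M (a + 1) / 8 := by
  have h1 : (3 * a + 1) % 3 = 1 := by omega
  have h2 : (3 * a + 1) / 3 = a := by omega
  simp [tune, h1, h2]

lemma tune2 (M : ℕ → ℝ) (a : ℕ) : tune M (3 * a + 2) = 1 - M (a + 1) / 8 := by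
  have h1 : (3 * a + 2) % 3 = 2 := by omega
  have h2 : (3 * a + 2) / 3 = a := by omega
  simp [tune, h1, h2]

lemma tune3 (M : ℕ → ℝ) (a : ℕ) : tune M (3 * a + 2 + 1) = -(M (a + 1) / 8) := by
  rw [show 3 * a + 2 + 1 = 3 * (a + 1) by ring, tune0]

lemma three_cases (k : ℕ) : ∃ a, k = 3 * a ∨ k = 3 * a + 1 ∨ k = 3 * a + 2 :=
  ⟨k / 3, by omega⟩

lemma modEq3 {n a b r s : ℕ} (hr : r < 3) (hs : s < 3) :
    3 * a + r ≡ 3 * b + s [MOD 3 * n] ↔ r = s ∧ a ≡ b [MOD n] := by
  constructor
  · intro h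
    have h3 : 3 * a + r ≡ 3 * b + s [MOD 3] := h.of_mul_right n
    have hrs : r = s := by unfold Nat.ModEq at h3; omega
    subst hrs
    refine ⟨rfl, ?_⟩
    have := Nat.ModEq.add_right_cancel' r h
    exact Nat.ModEq.mul_left_cancel' (by norm_num) this
  · rintro ⟨rfl, h⟩
    exact (h.mul_left' 3).add_right r

lemma modEq_succ {n a b : ℕ} : a + 1 ≡ b + 1 [MOD n] ↔ a ≡ b [MOD n] :=
  ⟨fun h => Nat.ModEq.add_right_cancel' 1 h, fun h => h.add_right 1⟩

/-- Residue classes modulo `n` are order intervals of the pattern. -/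
def Blocks (n : ℕ) (M : ℕ → ℝ) : Prop :=
  ∀ k l r, k ≡ l [MOD n] → M k ≤ M r → M r ≤ M l → r ≡ k [MOD n]

theorem exists_model (m : ℕ) : ∃ M : ℕ → ℝ, (∀ k, |M k| ≤ 3) ∧ IsModel (3 ^ m) M ∧
    ∀ j, j ≤ m → Blocks (3 ^ j) M := by
  induction m with
  | zero =>
    refine ⟨fun _ => 0, by simp, ⟨rfl, by simp [Nat.modEq_one], by simp, by simp⟩, ?_⟩
    intro j hj k l r _ _ _
    rw [Nat.le_zero.1 hj]; exact Nat.modEq_one
  | succ m ih =>
    obtain ⟨M, hb, hM, hB⟩ := ih
    have hb1 : ∀ k, -3 ≤ M k := fun k => (abs_le.1 (hb k)).1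
    have hb2 : ∀ k, M k ≤ 3 := fun k => (abs_le.1 (hb k)).2
    refine ⟨tune M, fun k => ?_, ⟨?_, fun k l => ?_, fun k l => ?_, fun k l => ?_⟩, ?_⟩
    · obtain ⟨a, rfl | rfl | rfl⟩ := three_cases k
      · rw [tune0, abs_le]; constructor <;> linarith [hb1 a, hb2 a]
      · rw [tune1, abs_le]; constructor <;> linarith [hb1 (a + 1), hb2 (a + 1)]
      · rw [tune2, abs_le]; constructor <;> linarith [hb1 (a + 1), hb2 (a + 1)]
    · have := tune0 M 0
      simpa [hM.zero] using this
    · rw [pow_succ']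
      obtain ⟨a, ha⟩ := three_cases k
      obtain ⟨b, hb⟩ := three_cases l
      have := hb1 a; have := hb2 a; have := hb1 (a + 1); have := hb2 (a + 1)
      have := hb1 b; have := hb2 b; have := hb1 (b + 1); have := hb2 (b + 1)
      have e0 : ∀ x : ℕ, 3 * x = 3 * x + 0 := fun x => rfl
      have f0 := hM.eq_iff a b
      have f1 := hM.eq_iff (a + 1) (b + 1)
      rw [modEq_succ] at f1
      rcases ha with rfl | rfl | rfl <;> rcases hb with rfl | rfl | rfl <;>
        simp only [tune0, tune1, tune2]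
      · rw [e0 a, e0 b, modEq3 (by norm_num) (by norm_num), ← f0]
        constructor
        · intro h; exact ⟨rfl, by linarith⟩
        · intro h; rw [h.2]
      · rw [e0 a, modEq3 (by norm_num) (by norm_num)]
        constructor
        · intro h; linarith
        · intro h; omega
      · rw [e0 a, modEq3 (by norm_num) (by norm_num)]
        constructor
        · intro h; linarith
        · intro h; omega
      · rw [e0 b, modEq3 (by norm_num) (by norm_num)]
        constructor
        · intro h; linarith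
        · intro h; omega
      · rw [modEq3 (by norm_num) (by norm_num), ← f1]
        constructor
        · intro h; exact ⟨rfl, by linarith⟩
        · intro h; rw [h.2]
      · rw [modEq3 (by norm_num) (by norm_num)]
        constructor
        · intro h; linarith
        · intro h; omega
      · rw [e0 b, modEq3 (by norm_num) (by norm_num)]
        constructor
        · intro h; linarith
        · intro h; omega
      · rw [modEq3 (by norm_num) (by norm_num)]
        constructor
        · intro h; linarith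
        · intro h; omega
      · rw [modEq3 (by norm_num) (by norm_num), ← f1]
        constructor
        · intro h; exact ⟨rfl, by linarith⟩
        · intro h; rw [h.2]
    · obtain ⟨a, ha⟩ := three_cases k
      obtain ⟨b, hb⟩ := three_cases l
      have := hb1 a; have := hb2 a; have := hb1 (a + 1); have := hb2 (a + 1)
      have := hb1 b; have := hb2 b; have := hb1 (b + 1); have := hb2 (b + 1)
      have f := hM.pos b a
      rcases ha with rfl | rfl | rfl <;> rcases hb with rfl | rfl | rfl <;>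
        simp only [tune0, tune1, tune2, tune3, show ∀ x : ℕ, 3 * x + 1 + 1 = 3 * x + 2 from
          fun x => rfl] <;> intro h1 h2 <;> first
        | linarith
        | linarith [f (by linarith) (by linarith)]
    · obtain ⟨a, ha⟩ := three_cases k
      obtain ⟨b, hb⟩ := three_cases l
      have := hb1 a; have := hb2 a; have := hb1 (a + 1); have := hb2 (a + 1)
      have := hb1 b; have := hb2 b; have := hb1 (b + 1); have := hb2 (b + 1)
      have f := hM.neg b a
      rcases ha with rfl | rfl | rfl <;> rcases hb with rfl | rfl | rfl <;>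
        simp only [tune0, tune1, tune2, tune3, show ∀ x : ℕ, 3 * x + 1 + 1 = 3 * x + 2 from
          fun x => rfl] <;> intro h1 h2 <;> first
        | linarith
        | linarith [f (by linarith) (by linarith)]
    · intro j hj k l r hkl h1 h2
      rcases j with _ | j
      · exact Nat.modEq_one
      rw [pow_succ'] at hkl ⊢
      have hBj := hB j (by omega)
      obtain ⟨a, ha⟩ := three_cases k
      obtain ⟨b, hb⟩ := three_cases l
      obtain ⟨d, hd⟩ := three_cases r
      have := hb1 a; have := hb2 a; have := hb1 (a + 1); have := hb2 (a + 1)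
      have := hb1 b; have := hb2 b; have := hb1 (b + 1); have := hb2 (b + 1)
      have := hb1 d; have := hb2 d; have := hb1 (d + 1); have := hb2 (d + 1)
      have h3 : k ≡ l [MOD 3] := hkl.of_mul_right _
      unfold Nat.ModEq at h3
      rcases ha with rfl | rfl | rfl <;> rcases hb with rfl | rfl | rfl <;>
        (try omega) <;> rcases hd with rfl | rfl | rfl <;>
        simp only [tune0, tune1, tune2] at h1 h2 <;> (try linarith)
      · have hab : a ≡ b [MOD 3 ^ j] := Nat.ModEq.mul_left_cancel' (by norm_num) hkl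
        exact ((hBj b a d hab.symm (by linarith) (by linarith)).trans hab.symm).mul_left' 3
      · have hab := ((modEq3 (by norm_num) (by norm_num)).1 hkl).2
        have := hBj (a + 1) (b + 1) (d + 1) (modEq_succ.2 hab) (by linarith) (by linarith)
        exact (modEq3 (by norm_num) (by norm_num)).2 ⟨rfl, modEq_succ.1 this⟩
      · have hab := ((modEq3 (by norm_num) (by norm_num)).1 hkl).2
        have := hBj (b + 1) (a + 1) (d + 1) (modEq_succ.2 hab.symm) (by linarith) (by linarith)
        exact (modEq3 (by norm_num) (by norm_num)).2 ⟨rfl, (modEq_succ.1 this).trans hab.symm⟩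

/-- The real polynomial with `m` nested primitive renormalisations. -/
theorem exists_poly (m : ℕ) (hm : 1 ≤ m) : ∃ c : ℝ, -2 < c ∧ (∀ k, |(q c)^[k] 0| ≤ 2) ∧
    (∀ k l, (q c)^[k] 0 = (q c)^[l] 0 ↔ k ≡ l [MOD 3 ^ m]) ∧
    ∀ j, j ≤ m → Blocks (3 ^ j) (fun k => (q c)^[k] 0) := by
  obtain ⟨M, -, hM, hB⟩ := exists_model m
  have h2 : 2 ≤ 3 ^ m := by
    calc 2 ≤ 3 ^ 1 := by norm_num
      _ ≤ 3 ^ m := Nat.pow_le_pow_right (by norm_num) hm
  obtain ⟨c, h1, hb, hlt⟩ := realize h2 hM
  have hle : ∀ k l, M k ≤ M l ↔ (q c)^[k] 0 ≤ (q c)^[l] 0 := fun k l => by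
    rw [← not_lt, ← not_lt, hlt]
  refine ⟨c, h1, hb, fun k l => ?_, fun j hj k l r a b d => ?_⟩
  · rw [← hM.eq_iff, le_antisymm_iff, le_antisymm_iff, hle, hle]
  · exact hB j hj k l r a ((hle _ _).2 b) ((hle _ _).2 d)

end Pool.Agent.MP_a0c272_an

end
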