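import Pool.Agent.MP_a0c272_an.Defs
import Pool.Agent.Mg.Fa0c272.G918810

section

/-!
Stars of arcs: contractibility, graph structure, number of branches.
-/

namespace Pool.Agent.MP_a0c272_an

open Set Topology Function unitInterval

/-- A star of `n` arcs ending at `p`. -/
structure IsStar {n : ℕ} (γ : Fin n → C(I, Sph)) (p : Sph) : Prop where
  pos : 0 < n
  inj : ∀ i, Injective (γ i)
  top : ∀ i, γ i 1 = p
  meet : ∀ i j s t, γ i s = γ j t → i = j ∨ γ i s = p

variable {n : ℕ} {γ : Fin n → C(I, Sph)} {p : Sph}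

lemma IsStar.eq_top (h : IsStar γ p) {i : Fin n} {s : I} : γ i s = p ↔ s = 1 :=
  ⟨fun e => h.inj i (e.trans (h.top i).symm), fun e => e ▸ h.top i⟩

lemma IsStar.contractible (h : IsStar γ p) : ContractibleSpace ↥(⋃ i, range (γ i)) := by
  set T := ⋃ i, range (γ i) with hT
  have hmem : ∀ i s, γ i s ∈ T := fun i s => mem_iUnion.2 ⟨i, s, rfl⟩
  let π : Fin n × I → T := fun w => ⟨γ w.1 w.2, hmem _ _⟩
  have hπc : Continuous π := by
    refine Continuous.subtype_mk ?_ _
    exact continuous_prod_of_discrete_left.2 fun i => (γ i).continuous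
  have hπs : Surjective π := by
    rintro ⟨y, hy⟩
    obtain ⟨i, s, rfl⟩ := mem_iUnion.1 hy
    exact ⟨(i, s), rfl⟩
  let Q : I × (Fin n × I) → I × T := Prod.map id π
  have hQc : Continuous Q := continuous_id.prodMap hπc
  have hQ : IsQuotientMap Q :=
    hQc.isClosedMap.isQuotientMap hQc (surjective_id.prodMap hπs)
  let F : I × (Fin n × I) → T := fun w => π (w.2.1, max w.2.2 w.1)
  have hFc : Continuous F := hπc.comp (by fun_prop)
  let H : I × T → T := fun w => F (w.1, surjInv hπs w.2)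
  have hHQ : H ∘ Q = F := by
    funext ⟨t, i, s⟩
    have e := surjInv_eq hπs (π (i, s))
    simp only [H, Q, comp, Prod.map, id]
    generalize surjInv hπs (π (i, s)) = w at e
    obtain ⟨j, s'⟩ := w
    have e' : γ j s' = γ i s := congrArg Subtype.val e
    apply Subtype.ext
    change γ j (max s' t) = γ i (max s t)
    rcases h.meet _ _ _ _ e' with rfl | e''
    · rw [h.inj _ e']
    · have h1 := h.eq_top.1 e''
      have h2 := h.eq_top.1 (e'.symm.trans e'')
      rw [h1, h2, max_eq_left le_one', h.top, h.top]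
  have hH : Continuous H := hQ.continuous_iff.2 (hHQ ▸ hFc)
  rw [contractible_iff_id_nullhomotopic]
  refine ⟨⟨p, h.top ⟨0, h.pos⟩ ▸ hmem _ _⟩, ⟨⟨⟨H, hH⟩, fun y => ?_, fun y => ?_⟩⟩⟩
  · obtain ⟨⟨i, s⟩, rfl⟩ := hπs y
    have := congrFun hHQ (0, i, s)
    simp only [comp, Q, Prod.map, id] at this
    change H (0, π (i, s)) = π (i, s)
    rw [this]
    simp only [F, max_eq_left (nonneg' : 0 ≤ s)]
  · obtain ⟨⟨i, s⟩, rfl⟩ := hπs y
    have := congrFun hHQ (1, i, s)
    simp only [comp, Q, Prod.map, id] at this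
    change H (1, π (i, s)) = _
    rw [this]
    apply Subtype.ext
    change γ i (max s 1) = p
    rw [max_eq_right le_one', h.top]

lemma IsStar.graph (h : IsStar γ p) {P : Set Sph} (hP : P.Finite) (hp : p ∈ P)
    (h0 : ∀ i, γ i 0 ∈ P) (hsub : P ⊆ ⋃ i, range (γ i)) :
    ∃ G : Graph, (G.V : Set Sph) = P ∧ G.carrier = ⋃ i, range (γ i) := by
  have hfin : ∀ i, ((γ i) ⁻¹' P).Finite := fun i => hP.preimage (h.inj i).injOn
  have hnext : ∀ (i : Fin n) (s : I), s ≠ 1 →
      ∃ s', s < s' ∧ γ i s' ∈ P ∧ ∀ t, s < t → γ i t ∈ P → s' ≤ t := by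
    intro i s hs
    obtain ⟨s', h1, h2⟩ := exists_min_image {t | s < t ∧ γ i t ∈ P} id
      ((hfin i).subset fun t ht => ht.2)
      ⟨1, lt_of_le_of_ne le_one' hs, by rw [h.top]; exact hp⟩
    exact ⟨s', h1.1, h1.2, fun t a b => h2 t ⟨a, b⟩⟩
  choose nx hnx1 hnx2 hnx3 using hnext
  let E := {w : Fin n × I // γ w.1 w.2 ∈ P ∧ w.2 ≠ 1}
  have : Finite E := by
    have : {w : Fin n × I | γ w.1 w.2 ∈ P ∧ w.2 ≠ 1}.Finite := by
      refine (Set.finite_iUnion fun i : Fin n => (hfin i).image (Prod.mk i)).subset ?_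
      rintro ⟨i, s⟩ hw
      exact mem_iUnion.2 ⟨i, s, hw.1, rfl⟩
    exact this.to_subtype
  let par : E → I → I := fun w t => Icc.convexComb w.1.2 (nx w.1.1 w.1.2 w.2.2) t
  have hparc : ∀ w, Continuous (par w) := fun w => Icc.continuous_convexComb _ _
  have hcoe : ∀ w t, (par w t : ℝ) = w.1.2 + t * ((nx w.1.1 w.1.2 w.2.2 : ℝ) - w.1.2) := by
    intro w t
    simp only [par, Icc.convexComb]; ring
  have hlt : ∀ w : E, (w.1.2 : ℝ) < nx w.1.1 w.1.2 w.2.2 := fun w => hnx1 _ _ _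
  have hpinj : ∀ w, Injective (par w) := by
    intro w s t e
    have := congrArg Subtype.val e
    rw [hcoe, hcoe] at this
    have h2 := sub_pos.2 (hlt w)
    exact Subtype.ext (mul_right_cancel₀ h2.ne' (by linarith))
  have hp0 : ∀ w, par w 0 = w.1.2 := fun w => Subtype.ext (by rw [hcoe]; simp)
  have hp1 : ∀ w, par w 1 = nx w.1.1 w.1.2 w.2.2 := fun w => Subtype.ext (by rw [hcoe]; simp)
  have hlo : ∀ w t, w.1.2 ≤ par w t := fun w t => Icc.le_convexComb (hnx1 _ _ _).le t
  have hhi : ∀ w t, par w t ≤ nx w.1.1 w.1.2 w.2.2 := fun w t =>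
    Icc.convexComb_le (hnx1 _ _ _).le t
  have hends : ∀ w t, γ w.1.1 (par w t) ∈ P ↔ t = 0 ∨ t = 1 := by
    intro w t
    constructor
    · intro ht
      rcases (hlo w t).lt_or_eq with e | e
      · right
        exact hpinj w ((le_antisymm (hhi w t) (hnx3 _ _ _ _ e ht)).trans (hp1 w).symm)
      · left
        exact hpinj w (e.symm.trans (hp0 w).symm)
    · rintro (rfl | rfl)
      · rw [hp0]; exact w.2.1
      · rw [hp1]; exact hnx2 _ _ _
  have hdisj : ∀ w w' s t, γ w.1.1 (par w s) = γ w'.1.1 (par w' t) →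
      w = w' ∨ γ w.1.1 (par w s) ∈ P := by
    rintro ⟨⟨i, a⟩, hw⟩ ⟨⟨j, b⟩, hw'⟩ s t e
    rcases h.meet _ _ _ _ e with hij | e'
    · simp only at hij
      subst hij
      have e2 := h.inj _ e
      rcases lt_trichotomy a b with hab | hab | hab
      · right
        have h1 := hhi ⟨(i, a), hw⟩ s
        have h2 := hlo ⟨(i, b), hw'⟩ t
        have h3 := hnx3 i a hw.2 b hab hw'.1
        have : par ⟨(i, a), hw⟩ s = b := le_antisymm (h1.trans h3) (e2 ▸ h2)
        rw [this]; exact hw'.1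
      · left; subst hab; rfl
      · right
        have h1 := hhi ⟨(i, b), hw'⟩ t
        have h2 := hlo ⟨(i, a), hw⟩ s
        have h3 := hnx3 i b hw'.2 a hab hw.1
        have : par ⟨(i, a), hw⟩ s = a := le_antisymm (e2 ▸ h1.trans h3) h2
        rw [this]; exact hw.1
    · right; rw [e']; exact hp
  let φ := (Finite.equivFin E).symm
  let ed : E → C(I, Sph) := fun w => ⟨fun t => γ w.1.1 (par w t), (γ _).continuous.comp (hparc w)⟩
  refine ⟨⟨hP.toFinset, Nat.card E, fun k => ed (φ k), fun k => (h.inj _).comp (hpinj _),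
    fun k t => ?_, fun k l s t e => ?_⟩, by simp, ?_⟩
  · rw [Finite.mem_toFinset]; exact hends _ t
  · rw [Finite.mem_toFinset]
    exact (hdisj _ _ s t e).imp_left fun e => φ.injective e
  · simp only [Graph.carrier, Finite.coe_toFinset]
    apply Subset.antisymm
    · refine union_subset hsub (iUnion_subset fun k => ?_)
      rintro _ ⟨t, rfl⟩
      exact mem_iUnion.2 ⟨_, _, rfl⟩
    · refine iUnion_subset fun i => ?_
      rintro _ ⟨t, rfl⟩
      obtain ⟨s, h1, h2⟩ := exists_max_image {s | s ≤ t ∧ γ i s ∈ P} id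
        ((hfin i).subset fun t ht => ht.2) ⟨0, nonneg', h0 i⟩
      by_cases ht : γ i t ∈ P
      · exact Or.inl ht
      right
      have hs1 : s ≠ 1 := by
        intro e
        have : t = 1 := le_antisymm le_one' (e ▸ h1.1)
        exact ht (by rw [this, h.top]; exact hp)
      let w : E := ⟨(i, s), h1.2, hs1⟩
      have h3 : t ≤ nx i s hs1 := by
        by_contra hcon
        have := h2 _ ⟨(not_le.1 hcon).le, hnx2 i s hs1⟩
        exact absurd (hnx1 i s hs1) (not_lt.2 this)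
      have h4 : t ∈ Icc (par w 0) (par w 1) := by rw [hp0, hp1]; exact ⟨h1.1, h3⟩
      obtain ⟨u, -, hu⟩ := intermediate_value_Icc (zero_le_one' I) (hparc w).continuousOn h4
      refine mem_iUnion.2 ⟨φ.symm w, u, ?_⟩
      simp only [ed, Equiv.apply_symm_apply, ContinuousMap.coe_mk, hu]
      rfl

lemma IsStar.card_le {n' : ℕ} {γ' : Fin n' → C(I, Sph)} (h : IsStar γ p) (h' : IsStar γ' p)
    (f : ↥(⋃ i, range (γ i)) → Sph) (hf : Continuous f) (hinj : Injective f)
    (hr : range f = ⋃ i, range (γ' i)) 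
    (hp : ∀ x : ↥(⋃ i, range (γ i)), (x : Sph) = p → f x = p) : n' ≤ n := by
  have hmem : ∀ i s, γ i s ∈ ⋃ i, range (γ i) := fun i s => mem_iUnion.2 ⟨i, s, rfl⟩
  let g : Fin n → I → Sph := fun i s => f ⟨γ i s, hmem i s⟩
  have hgc : ∀ i, Continuous (g i) := fun i => hf.comp ((γ i).continuous.subtype_mk _)
  have hgp : ∀ i s, g i s = p → s = 1 := by
    intro i s e
    have := hinj (e.trans (hp ⟨γ i 1, hmem i 1⟩ (h.top i)).symm)
    exact h.inj i (congrArg Subtype.val this)
  have hne : ∀ j, γ' j 0 ≠ p := fun j e => zero_ne_one (h'.eq_top.1 e)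
  have hex : ∀ j, ∃ i s, s < 1 ∧ g i s = γ' j 0 := by
    intro j
    have : γ' j 0 ∈ range f := by rw [hr]; exact mem_iUnion.2 ⟨j, 0, rfl⟩
    obtain ⟨⟨y, hy⟩, e⟩ := this
    obtain ⟨i, s, rfl⟩ := mem_iUnion.1 hy
    refine ⟨i, s, lt_of_le_of_ne le_one' (fun e' => hne j ?_), e⟩
    rw [← e]; exact hp _ (h.eq_top.2 e')
  choose φ ρ hρ hφ using hex
  have hcl : ∀ j, IsClosed (range (γ' j)) := fun j => (isCompact_range (γ' j).continuous).isClosed
  have key : Injective φ := by
    intro j k e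
    by_contra hjk
    have hS : IsPreconnected (g (φ j) '' Iio 1) := isPreconnected_Iio.image _ (hgc _).continuousOn
    have hv : IsClosed (⋃ l ∈ {l | l ≠ j}, range (γ' l)) :=
      (Set.toFinite _).isClosed_biUnion fun l _ => hcl l
    have hnp : ∀ y ∈ g (φ j) '' Iio 1, y ≠ p := by
      rintro _ ⟨s, hs, rfl⟩ e'
      exact absurd (hgp _ _ e') (ne_of_lt hs)
    rcases isPreconnected_iff_subset_of_disjoint_closed.1 hS _ _ (hcl j) hv (by
      rintro _ ⟨s, -, rfl⟩
      have : g (φ j) s ∈ ⋃ i, range (γ' i) := by rw [← hr]; exact ⟨_, rfl⟩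
      obtain ⟨l, hl⟩ := mem_iUnion.1 this
      by_cases e' : l = j
      · left; exact e' ▸ hl
      · right; exact mem_biUnion e' hl) (by
      rw [eq_empty_iff_forall_notMem]
      rintro y ⟨hy, ⟨s, rfl⟩, h2⟩
      obtain ⟨l, hl, t, ht⟩ := mem_iUnion₂.1 h2
      rcases h'.meet _ _ _ _ ht.symm with e' | e'
      · exact hl e'.symm
      · exact hnp _ hy e') with h1 | h1
    · obtain ⟨s, hs⟩ := h1 ⟨ρ k, hρ k, by rw [e, hφ]⟩
      rcases h'.meet _ _ _ _ hs.symm with e' | e'
      · exact hjk e'.symm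
      · exact hne k e'
    · obtain ⟨l, hl, s, hs⟩ := mem_iUnion₂.1 (h1 ⟨ρ j, hρ j, hφ j⟩)
      rcases h'.meet _ _ _ _ hs.symm with e' | e'
      · exact hl e'.symm
      · exact hne j e'
  simpa using Fintype.card_le_of_injective φ key

end Pool.Agent.MP_a0c272_an

end

section

/-!
The straightening isotopy, the arcs, critical values.
-/

namespace Pool.Agent.MP_a0c272_an

open Set Topology Function unitInterval Filter OnePoint

lemma tendsto_infty_of {α : Type*} {l : Filter α} {g : α → Sph}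
    (h : ∀ R : ℝ, ∀ᶠ a in l, g a = ∞ ∨ ∃ z : ℂ, g a = z ∧ R < ‖z‖) : Tendsto g l (𝓝 ∞) := by
  rw [hasBasis_nhds_infty.tendsto_right_iff]
  rintro K ⟨-, hK⟩
  obtain ⟨R, hR⟩ := hK.isBounded.subset_closedBall 0
  filter_upwards [h R] with a ha
  rcases ha with e | ⟨z, e, hz⟩
  · exact Or.inr e
  · refine Or.inl ⟨z, fun hzK => ?_, e.symm⟩
    have := hR hzK
    rw [mem_closedBall_zero_iff] at this
    linarith

lemma eventually_infty (R : ℝ) :
    ∀ᶠ x : Sph in 𝓝 ∞, x = ∞ ∨ ∃ z : ℂ, x = z ∧ R < ‖z‖ := by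
  filter_upwards [hasBasis_nhds_infty.mem_of_mem (i := Metric.closedBall (0 : ℂ) R)
    ⟨Metric.isClosed_closedBall, isCompact_closedBall _ _⟩] with x hx
  rcases hx with ⟨z, hz, rfl⟩ | e
  · exact Or.inr ⟨z, rfl, by simpa using hz⟩
  · exact Or.inl e

lemma continuous_map_family {F : I × ℂ → ℂ} (hF : Continuous F) (hn : ∀ t z, ‖z‖ ≤ ‖F (t, z)‖) :
    Continuous fun p : I × Sph => OnePoint.map (fun z => F (p.1, z)) p.2 := by
  rw [continuous_iff_continuousAt]
  rintro ⟨t, x⟩
  induction x using OnePoint.rec with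
  | infty =>
    refine tendsto_infty_of fun R => ?_
    filter_upwards [(continuous_snd.tendsto (t, (∞ : Sph))).eventually (eventually_infty R)]
      with p hp
    rcases hp with e | ⟨z, e, hz⟩
    · left; rw [e]; rfl
    · right; exact ⟨F (p.1, z), by rw [e]; rfl, hz.trans_le (hn _ _)⟩
  | coe z =>
    have he : IsOpenEmbedding (Prod.map (id : I → I) ((↑) : ℂ → Sph)) :=
      IsOpenEmbedding.id.prodMap isOpenEmbedding_coe
    have := (he.continuousAt_iff (g := fun p : I × Sph => OnePoint.map (fun z => F (p.1, z)) p.2)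
      (x := (t, z))).1 ((continuous_coe.comp hF).continuousAt)
    exact this

/-- The horizontal displacement. -/
noncomputable def hh (δ w u : ℝ) : ℝ := u * √(1 + w ^ 2 / max (u ^ 2) (δ ^ 2))

/-- The planar isotopy. -/
noncomputable def psi (δ t : ℝ) (z : ℂ) : ℂ := ⟨hh δ (t * z.im) z.re, z.im⟩

variable {δ : ℝ}

lemma hh_zero (δ u : ℝ) : hh δ 0 u = u := by simp [hh]

lemma hh_fac (δ w u : ℝ) : 1 ≤ √(1 + w ^ 2 / max (u ^ 2) (δ ^ 2)) := by
  rw [Real.one_le_sqrt]
  have : 0 ≤ w ^ 2 / max (u ^ 2) (δ ^ 2) := by positivity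
  linarith

lemma hh_abs (δ w u : ℝ) : |u| ≤ |hh δ w u| := by
  have := hh_fac δ w u
  rw [hh, abs_mul, abs_of_nonneg (Real.sqrt_nonneg _)]
  nlinarith [abs_nonneg u]

lemma continuous_hh (hδ : 0 < δ) : Continuous fun p : ℝ × ℝ => hh δ p.1 p.2 := by
  unfold hh
  refine continuous_snd.mul (Continuous.sqrt (continuous_const.add (Continuous.div
    (by fun_prop) (by fun_prop) fun p => ?_)))
  exact (lt_max_of_lt_right (by positivity)).ne'

lemma hh_sq (δ w u : ℝ) : hh δ w u ^ 2 = u ^ 2 + w ^ 2 * (u ^ 2 / max (u ^ 2) (δ ^ 2)) := by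
  rw [hh, mul_pow, Real.sq_sqrt (by positivity)]; ring

lemma hh_inj (hδ : 0 < δ) (w : ℝ) : Injective (hh δ w) := by
  have mono : ∀ s s' : ℝ, 0 ≤ s → s ≤ s' → s / max s (δ ^ 2) ≤ s' / max s' (δ ^ 2) := by
    intro s s' h0 h1
    have hd : 0 < δ ^ 2 := by positivity
    rw [div_le_div_iff₀ (lt_max_of_lt_right hd) (lt_max_of_lt_right hd)]
    rcases le_total s (δ ^ 2) with a | a <;> rcases le_total s' (δ ^ 2) with b | b <;>
      simp only [max_eq_left, max_eq_right, a, b] <;> nlinarith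
  intro u u' e
  have e2 : hh δ w u ^ 2 = hh δ w u' ^ 2 := by rw [e]
  rw [hh_sq, hh_sq] at e2
  have e3 : u ^ 2 = u' ^ 2 := by
    rcases le_total (u ^ 2) (u' ^ 2) with a | a
    · have := mul_le_mul_of_nonneg_left (mono _ _ (sq_nonneg u) a) (sq_nonneg w)
      linarith
    · have := mul_le_mul_of_nonneg_left (mono _ _ (sq_nonneg u') a) (sq_nonneg w)
      linarith
  unfold hh at e
  rw [e3] at e
  exact mul_right_cancel₀ (by linarith [hh_fac δ w u']) e

lemma hh_surj (hδ : 0 < δ) (w : ℝ) : Surjective (hh δ w) := by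
  intro y
  have hc : Continuous (hh δ w) := (continuous_hh hδ).comp (Continuous.prodMk_right w)
  have h1 : hh δ w (-|y|) ≤ y := by
    have := hh_fac δ w (-|y|)
    unfold hh; nlinarith [abs_nonneg y, neg_abs_le y]
  have h2 : y ≤ hh δ w |y| := by
    have := hh_fac δ w |y|
    unfold hh; nlinarith [abs_nonneg y, le_abs_self y]
  exact mem_range_of_exists_le_of_exists_ge hc ⟨_, h1⟩ ⟨_, h2⟩

lemma psi_bij (hδ : 0 < δ) (t : ℝ) : Bijective (psi δ t) := by
  constructor
  · intro z z' e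
    have h1 : z.im = z'.im := (congrArg Complex.im e : (psi δ t z).im = (psi δ t z').im)
    have h2 : hh δ (t * z.im) z.re = hh δ (t * z'.im) z'.re := congrArg Complex.re e
    rw [h1] at h2
    exact Complex.ext (hh_inj hδ _ h2) h1
  · intro y
    obtain ⟨u, hu⟩ := hh_surj hδ (t * y.im) y.re
    exact ⟨⟨u, y.im⟩, Complex.ext hu rfl⟩

lemma psi_norm (δ t : ℝ) (z : ℂ) : ‖z‖ ≤ ‖psi δ t z‖ := by
  rw [← sq_le_sq₀ (norm_nonneg _) (norm_nonneg _), Complex.sq_norm, Complex.sq_norm,
    Complex.normSq_apply, Complex.normSq_apply]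
  have := sq_le_sq.2 (hh_abs δ (t * z.im) z.re)
  simp only [psi]
  nlinarith

lemma continuous_psi (hδ : 0 < δ) : Continuous fun p : I × ℂ => psi δ p.1 p.2 := by
  have : (fun p : I × ℂ => psi δ p.1 p.2) =
      fun p => (hh δ (p.1 * p.2.im) p.2.re : ℂ) + p.2.im * Complex.I := by
    funext p; apply Complex.ext <;> simp [psi]
  rw [this]
  have h2 : Continuous fun p : I × ℂ => hh δ (p.1 * p.2.im) p.2.re :=
    (continuous_hh hδ).comp (f := fun p : I × ℂ => ((p.1 : ℝ) * p.2.im, p.2.re)) (by fun_prop)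
  fun_prop

/-- The isotopy of the sphere. -/
noncomputable def Psi (hδ : 0 < δ) : C(I × Sph, Sph) :=
  ⟨fun p => OnePoint.map (fun z => psi δ p.1 z) p.2,
    continuous_map_family (continuous_psi hδ) fun t z => psi_norm δ t z⟩

lemma Psi_infty (hδ : 0 < δ) (t : I) : Psi hδ (t, ∞) = ∞ := rfl

lemma Psi_coe (hδ : 0 < δ) (t : I) (z : ℂ) : Psi hδ (t, z) = (psi δ t z : ℂ) := rfl

lemma Psi_real (hδ : 0 < δ) (t : I) (r : ℝ) : Psi hδ (t, ((r : ℂ) : Sph)) = (r : ℂ) := by
  rw [Psi_coe]; congr 1; apply Complex.ext <;> simp [psi, hh_zero]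

lemma Psi_zero (hδ : 0 < δ) (x : Sph) : Psi hδ (0, x) = x := by
  induction x using OnePoint.rec with
  | infty => rfl
  | coe z => rw [Psi_coe]; congr 1; apply Complex.ext <;> simp [psi, hh_zero]

lemma Psi_homeo (hδ : 0 < δ) (t : I) : IsHomeomorph fun x => Psi hδ (t, x) := by
  rw [isHomeomorph_iff_continuous_bijective]
  refine ⟨(Psi hδ).continuous.comp (Continuous.prodMk_right t), fun x y e => ?_, fun y => ?_⟩
  · induction x using OnePoint.rec <;> induction y using OnePoint.rec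
    · rfl
    · exact absurd e (infty_ne_coe _)
    · exact absurd e (coe_ne_infty _)
    · exact congrArg _ ((psi_bij hδ t).1 (coe_injective e))
  · induction y using OnePoint.rec with
    | infty => exact ⟨∞, rfl⟩
    | coe y =>
      obtain ⟨z, hz⟩ := (psi_bij hδ t).2 y
      exact ⟨z, congrArg _ hz⟩

lemma quad_real (c r : ℝ) : quad c ((r : ℂ) : Sph) = ((r ^ 2 + c : ℝ) : ℂ) := by
  simp [quad]

lemma quad_Psi_leg (hδ : 0 < δ) (c : ℝ) {x : ℝ} (hx : δ ≤ |x|) (v : ℝ) :
    ∃ ρ : ℝ, 0 ≤ ρ ∧ quad c (Psi hδ (1, ((⟨x, v⟩ : ℂ) : Sph))) =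
      ((⟨x ^ 2 + c, ρ * (x * v)⟩ : ℂ) : Sph) := by
  have h1 : δ ^ 2 ≤ x ^ 2 := by rw [← sq_abs x]; exact pow_le_pow_left₀ hδ.le hx 2
  have h2 : x ^ 2 ≠ 0 := by
    have : 0 < δ ^ 2 := by positivity
    linarith
  refine ⟨2 * √(1 + v ^ 2 / max (x ^ 2) (δ ^ 2)), by positivity, ?_⟩
  rw [Psi_coe, quad, map_some]
  congr 1
  have h3 := hh_sq δ v x
  rw [max_eq_left h1, div_self h2] at h3
  apply Complex.ext
  · simp only [psi, pow_two, Icc.coe_one, one_mul, Complex.add_re, Complex.mul_re,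
      Complex.ofReal_re] at h3 ⊢
    linarith
  · simp only [psi, pow_two, Icc.coe_one, one_mul, Complex.add_im, Complex.mul_im,
      Complex.ofReal_im, hh]
    ring

lemma critVal_comp (f : Sph → Sph) {ψ : Sph → Sph} (hψ : IsHomeomorph ψ) :
    critVal (fun x => f (ψ x)) = critVal f := by
  have key : ∀ x, (∃ U ∈ 𝓝 x, InjOn (fun x => f (ψ x)) U) ↔ ∃ U ∈ 𝓝 (ψ x), InjOn f U := by
    intro x
    constructor
    · rintro ⟨U, hU, h⟩
      refine ⟨ψ '' U, hψ.isOpenMap.image_mem_nhds hU, ?_⟩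
      rintro _ ⟨a, ha, rfl⟩ _ ⟨b, hb, rfl⟩ e
      rw [h ha hb e]
    · rintro ⟨U, hU, h⟩
      exact ⟨ψ ⁻¹' U, hψ.continuous.continuousAt hU, fun a ha b hb e =>
        hψ.injective (h ha hb e)⟩
  ext y
  simp only [critVal, mem_image, mem_ofPred_eq, key]
  constructor
  · rintro ⟨x, hx, rfl⟩; exact ⟨ψ x, hx, rfl⟩
  · rintro ⟨x, hx, rfl⟩
    obtain ⟨x, rfl⟩ := hψ.surjective x
    exact ⟨x, hx, rfl⟩

lemma critVal_quad (c : ℂ) : critVal (quad c) = {(c : Sph), ∞} := by
  have pair : ∀ (U : Set Sph) (z : ℂ), z ≠ 0 → (z : Sph) ∈ U → ((-z : ℂ) : Sph) ∈ U →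
      ¬ InjOn (quad c) U := by
    intro U z hz h1 h2 h
    have := coe_injective (h h1 h2 (by simp [quad]))
    exact hz (by linear_combination this / 2)
  have key : {x : Sph | ¬ ∃ U ∈ 𝓝 x, InjOn (quad c) U} = {((0 : ℂ) : Sph), ∞} := by
    ext x
    simp only [mem_ofPred_eq, mem_insert_iff, mem_singleton_iff]
    constructor
    · intro h
      induction x using OnePoint.rec with
      | infty => exact Or.inr rfl
      | coe z =>
        left
        by_contra hz
        have hz' : z ≠ 0 := fun e => hz (by rw [e])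
        apply h
        refine ⟨(↑) '' Metric.ball z ‖z‖, isOpenMap_coe.image_mem_nhds
          (Metric.ball_mem_nhds _ (norm_pos_iff.2 hz')), ?_⟩
        rintro _ ⟨a, ha, rfl⟩ _ ⟨b, hb, rfl⟩ e
        have e' : a ^ 2 + c = b ^ 2 + c := coe_injective e
        rcases sq_eq_sq_iff_eq_or_eq_neg.1 (add_right_cancel e') with e2 | e2
        · rw [e2]
        · exfalso
          rw [mem_ball_iff_norm] at ha hb
          have h1 := norm_add_le (a - z) (b - z)
          rw [show a - z + (b - z) = -2 * z by rw [e2]; ring, norm_mul] at h1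
          simp at h1
          linarith
    · rintro (rfl | rfl) ⟨U, hU, h⟩
      · have h1 : (↑) ⁻¹' U ∈ 𝓝 (0 : ℂ) := continuous_coe.continuousAt hU
        obtain ⟨ε, hε, h2⟩ := Metric.mem_nhds_iff.1 h1
        refine pair U (ε / 2 : ℝ) (by simp [hε.ne']) (h2 ?_) (h2 ?_) h <;>
          simp [abs_of_pos hε, hε]
      · obtain ⟨K, ⟨-, hK⟩, h2⟩ := hasBasis_nhds_infty.mem_iff.1 hU
        obtain ⟨R, hR0, hR⟩ := hK.isBounded.subset_ball_lt 0 0
        refine pair U R (by simp [hR0.ne']) (h2 (Or.inl ⟨_, fun e => ?_, rfl⟩))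
          (h2 (Or.inl ⟨_, fun e => ?_, rfl⟩)) h <;>
        · have := hR e
          simp [abs_of_pos hR0] at this
  rw [critVal, key, image_pair]
  simp [quad]

lemma postcrit_eq {g : Sph → Sph} {z : ℕ → Sph} (hfin : (range z).Finite)
    (hc : critVal g = {z 0, ∞}) (hz : ∀ k, g (z k) = z (k + 1)) (hi : g ∞ = ∞) :
    postcrit g = insert ∞ (range z) := by
  apply Subset.antisymm
  · refine sInter_subset_of_mem ⟨(hfin.insert _).isClosed, ?_, ?_⟩
    · rintro _ (rfl | ⟨k, rfl⟩)
      · exact Or.inl hi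
      · exact Or.inr ⟨k + 1, (hz k).symm⟩
    · rw [hc]
      rintro _ (rfl | rfl)
      · exact Or.inr ⟨0, rfl⟩
      · exact Or.inl rfl
  · refine subset_sInter fun X hX => ?_
    obtain ⟨-, h1, h2⟩ := hX
    rw [hc] at h2
    rintro _ (rfl | ⟨k, rfl⟩)
    · exact h2 (Or.inr rfl)
    · induction k with
      | zero => exact h2 (Or.inl rfl)
      | succ k ih => rw [← hz]; exact h1 ih

/-- The arc from `a` along the real line to `x` and then vertically to infinity. -/
noncomputable def arcF (a x τ : ℝ) (t : I) : Sph :=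
  if (t : ℝ) = 1 then ∞ else
    ((⟨a + min (2 * (t : ℝ)) 1 * (x - a), τ * (max (2 * (t : ℝ) - 1) 0 / (1 - t))⟩ : ℂ) : Sph)

lemma continuous_arcF (a x : ℝ) {τ : ℝ} (hτ : τ = 1 ∨ τ = -1) : Continuous (arcF a x τ) := by
  rw [continuous_iff_continuousAt]
  intro t
  by_cases ht : (t : ℝ) = 1
  · rw [ContinuousAt, show arcF a x τ t = ∞ by simp [arcF, ht]]
    refine tendsto_infty_of fun R => ?_
    have hpos : 0 < min (1 / 4) (1 / (2 * |R| + 2)) := by positivity
    have : ∀ᶠ s : I in 𝓝 t, 1 - (s : ℝ) < min (1 / 4) (1 / (2 * |R| + 2)) :=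
      (by fun_prop : Continuous fun s : I => 1 - (s : ℝ)).continuousAt.eventually
        (gt_mem_nhds (by simp only [ht, sub_self]; exact hpos))
    filter_upwards [this] with s hs
    by_cases h1 : (s : ℝ) = 1
    · left; simp [arcF, h1]
    · right
      refine ⟨_, if_neg h1, lt_of_lt_of_le ?_ (Complex.abs_im_le_norm _)⟩
      rw [lt_min_iff] at hs
      have h2 : 0 < 1 - (s : ℝ) := sub_pos.2 (lt_of_le_of_ne s.2.2 h1)
      have h3 : |τ| = 1 := by rcases hτ with e | e <;> simp [e]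
      simp only
      rw [abs_mul, h3, one_mul, abs_of_nonneg (by positivity), max_eq_left (by linarith),
        lt_div_iff₀ h2]
      have h4 := hs.2
      rw [lt_div_iff₀ (by positivity)] at h4
      nlinarith [le_abs_self R, abs_nonneg R]
  · have hev : ∀ᶠ s : I in 𝓝 t, (s : ℝ) ≠ 1 :=
      continuous_subtype_val.continuousAt.eventually_ne ht
    have : ContinuousAt (fun s : I => (((a + min (2 * (s : ℝ)) 1 * (x - a) : ℝ) +
        (τ * (max (2 * (s : ℝ) - 1) 0 / (1 - s)) : ℝ) * Complex.I : ℂ) : Sph)) t := by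
      refine continuous_coe.continuousAt.comp ?_
      have h2 : ContinuousAt (fun s : I => max (2 * (s : ℝ) - 1) 0 / (1 - s)) t :=
        ContinuousAt.div (by fun_prop) (by fun_prop) (sub_ne_zero.2 (Ne.symm ht))
      refine ContinuousAt.add (by fun_prop) (ContinuousAt.mul ?_ continuousAt_const)
      exact Complex.continuous_ofReal.continuousAt.comp (continuousAt_const.mul h2)
    refine this.congr (hev.mono fun s hs => ?_)
    simp only [arcF, if_neg hs]
    congr 1
    apply Complex.ext <;> simp only [Complex.add_re, Complex.ofReal_re, Complex.mul_re,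
      Complex.I_re, Complex.ofReal_im, Complex.I_im, Complex.add_im, Complex.mul_im] <;> ring

lemma arcF_one (a x τ : ℝ) : arcF a x τ 1 = ∞ := by simp [arcF]

lemma arcF_zero (a x τ : ℝ) : arcF a x τ 0 = (a : ℂ) := by
  simp only [arcF, Icc.coe_zero, zero_ne_one, if_false]
  congr 1
  apply Complex.ext <;> simp

lemma arcF_inj {a x τ : ℝ} (hax : a ≠ x) (hτ : τ = 1 ∨ τ = -1) : Injective (arcF a x τ) := by
  intro s t e
  unfold arcF at e
  split_ifs at e with h1 h2 h2
  · exact Subtype.ext (h1.trans h2.symm)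
  · exact absurd e (infty_ne_coe _)
  · exact absurd e (coe_ne_infty _)
  have e' := coe_injective e
  have e1 : a + min (2 * (s : ℝ)) 1 * (x - a) = a + min (2 * (t : ℝ)) 1 * (x - a) :=
    congrArg Complex.re e'
  have e2 : τ * (max (2 * (s : ℝ) - 1) 0 / (1 - s)) = τ * (max (2 * (t : ℝ) - 1) 0 / (1 - t)) :=
    congrArg Complex.im e'
  have e3 := mul_right_cancel₀ (sub_ne_zero.2 hax.symm) (add_left_cancel e1)
  have e4 := mul_left_cancel₀ (by rcases hτ with e | e <;> simp [e]) e2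
  have hs : 0 < 1 - (s : ℝ) := sub_pos.2 (lt_of_le_of_ne s.2.2 h1)
  have ht : 0 < 1 - (t : ℝ) := sub_pos.2 (lt_of_le_of_ne t.2.2 h2)
  rw [div_eq_div_iff hs.ne' ht.ne'] at e4
  apply Subtype.ext
  rcases le_total (2 * (s : ℝ)) 1 with a1 | a1 <;> rcases le_total (2 * (t : ℝ)) 1 with a2 | a2
  · rw [min_eq_left a1, min_eq_left a2] at e3; linarith
  · rw [min_eq_left a1, min_eq_right a2] at e3
    rw [max_eq_right (by linarith), max_eq_left (by linarith)] at e4
    nlinarith
  · rw [min_eq_right a1, min_eq_left a2] at e3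
    rw [max_eq_left (by linarith), max_eq_right (by linarith)] at e4
    nlinarith
  · rw [max_eq_left (by linarith), max_eq_left (by linarith)] at e4
    nlinarith

lemma mem_range_arcF {a x τ : ℝ} {y : Sph} : y ∈ range (arcF a x τ) ↔
    y = ∞ ∨ (∃ r ∈ uIcc a x, y = (r : ℂ)) ∨ ∃ v : ℝ, 0 ≤ v ∧ y = ((⟨x, τ * v⟩ : ℂ) : Sph) := by
  constructor
  · rintro ⟨t, rfl⟩
    unfold arcF
    split_ifs with h1
    · exact Or.inl rfl
    right
    have ht : 0 < 1 - (t : ℝ) := sub_pos.2 (lt_of_le_of_ne t.2.2 h1)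
    rcases le_total (2 * (t : ℝ)) 1 with a1 | a1
    · left
      refine ⟨a + 2 * t * (x - a), ?_, ?_⟩
      · rw [← segment_eq_uIcc, segment_eq_image']
        exact ⟨2 * t, ⟨by linarith [t.2.1], a1⟩, rfl⟩
      · rw [min_eq_left a1, max_eq_right (by linarith)]
        congr 1
        apply Complex.ext
        · rfl
        · simp only [Complex.ofReal_im]; ring
    · right
      refine ⟨max (2 * (t : ℝ) - 1) 0 / (1 - t), by positivity, ?_⟩
      rw [min_eq_right a1]
      congr 2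
      ring
  · rintro (rfl | ⟨r, hr, rfl⟩ | ⟨v, hv, rfl⟩)
    · exact ⟨1, arcF_one _ _ _⟩
    · rw [← segment_eq_uIcc, segment_eq_image'] at hr
      obtain ⟨s, hs, rfl⟩ := hr
      refine ⟨⟨s / 2, by linarith [hs.1], by linarith [hs.2]⟩, ?_⟩
      have h1 : s / 2 ≠ 1 := by linarith [hs.2]
      simp only [arcF, if_neg h1]
      rw [min_eq_left (by linarith [hs.2]), max_eq_right (by linarith [hs.2])]
      congr 1
      apply Complex.ext
      · simp only [Complex.ofReal_re, smul_eq_mul]; ring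
      · simp only [Complex.ofReal_im]; ring
    · have h0 : 0 < 2 + v := by linarith
      have h2 : (1 + v) / (2 + v) < 1 := by rw [div_lt_one h0]; linarith
      have h3 : 1 ≤ 2 * ((1 + v) / (2 + v)) := by
        rw [← mul_div_assoc, one_le_div h0]; linarith
      refine ⟨⟨(1 + v) / (2 + v), by positivity, h2.le⟩, ?_⟩
      simp only [arcF, if_neg h2.ne]
      rw [min_eq_right h3, max_eq_left (by linarith)]
      congr 2
      · ring
      · congr 1
        rw [div_eq_iff (by linarith)]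
        field_simp
        ring

end Pool.Agent.MP_a0c272_an

end

section

/-!
The cycle of intervals of one renormalisation level and its cycle of feet.
-/

namespace Pool.Agent.MP_a0c272_an

open Set Function

/-- The data of one level: far ends `a`, feet `x`, sides `τ`. -/
structure Level (c : ℝ) (z : ℕ → ℝ) (n : ℕ) (a x τ : ℕ → ℝ) : Prop where
  sgn : ∀ i, τ i = 1 ∨ τ i = -1
  pa : Periodic a n
  px : Periodic x n
  pτ : Periodic τ n
  a_mem : ∀ i, ∃ k, a i = z k
  x_ne : ∀ i k, x i ≠ z k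
  cover : ∀ k, z k ∈ uIcc (a k) (x k)
  maps : ∀ i, MapsTo (q c) (uIcc (a i) (x i)) (uIcc (a (i + 1)) (x (i + 1)))
  foot : ∀ i, q c (x i) = x (i + 1)
  side : ∀ i, τ (i + 1) = τ i * sg (x i)
  disj : ∀ i l, ¬ i ≡ l [MOD n] → Disjoint (uIcc (a i) (x i)) (uIcc (a l) (x l))

/-- The sides. -/
noncomputable def tau (n : ℕ) (z : ℕ → ℝ) : ℕ → ℝ
  | 0 => 1
  | i + 1 => if n ∣ i + 1 then 1 else tau n z i * sg (z (i % n))

/-- The sign of the inverse branch. -/
noncomputable def sig (n : ℕ) (z : ℕ → ℝ) (i : ℕ) : ℝ :=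
  if n ∣ i + 1 then tau n z i else sg (z (i % n))

lemma tau_cases (n : ℕ) (z : ℕ → ℝ) (i : ℕ) : tau n z i = 1 ∨ tau n z i = -1 := by
  induction i with
  | zero => simp [tau]
  | succ i ih =>
    simp only [tau]
    split_ifs
    · simp
    · rcases ih with h | h <;> rcases sg_cases (z (i % n)) with h' | h' <;> simp [h, h']

lemma sig_cases (n : ℕ) (z : ℕ → ℝ) (i : ℕ) : sig n z i = 1 ∨ sig n z i = -1 := by
  unfold sig; split_ifs
  · exact tau_cases n z i
  · exact sg_cases _

lemma tau_succ (n : ℕ) (z : ℕ → ℝ) (i : ℕ) : tau n z (i + 1) = tau n z i * sig n z i := by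
  simp only [tau, sig]
  split_ifs
  · rcases tau_cases n z i with h | h <;> simp [h]
  · rfl

lemma tau_dvd (n : ℕ) (z : ℕ → ℝ) {i : ℕ} (h : n ∣ i) : tau n z i = 1 := by
  cases i with
  | zero => rfl
  | succ i => simp [tau, h]

lemma tau_per (n : ℕ) (z : ℕ → ℝ) : Periodic (tau n z) n := by
  intro i
  induction i with
  | zero => rw [zero_add, tau_dvd n z dvd_rfl]; rfl
  | succ i ih =>
    rw [show i + 1 + n = (i + n) + 1 by ring]
    simp only [tau, ih, Nat.add_mod_right]
    have : n ∣ i + n + 1 ↔ n ∣ i + 1 := by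
      rw [show i + n + 1 = (i + 1) + n by ring]; exact Nat.dvd_add_self_right
    simp only [this]

lemma sig_per (n : ℕ) (z : ℕ → ℝ) : Periodic (sig n z) n := by
  intro i
  have : n ∣ i + n + 1 ↔ n ∣ i + 1 := by
    rw [show i + n + 1 = (i + 1) + n by ring]; exact Nat.dvd_add_self_right
  simp only [sig, this, tau_per n z i, Nat.add_mod_right]

/-- The gap next to block `i`, on its side `τ i`. -/
def gap (n : ℕ) (z : ℕ → ℝ) (i : ℕ) : Set ℝ :=
  {x | |x| ≤ 2 ∧ (∀ k, k ≡ i [MOD n] → tau n z i * z k ≤ tau n z i * x) ∧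
    ∀ k l, ¬ k ≡ i [MOD n] → l ≡ i [MOD n] → tau n z i * z l < tau n z i * z k →
      tau n z i * x ≤ tau n z i * z k}

lemma gap_per (n : ℕ) (z : ℕ → ℝ) : Periodic (gap n z) n := by
  intro i
  have : ∀ k, k ≡ i + n [MOD n] ↔ k ≡ i [MOD n] := fun k => by simp [Nat.ModEq]
  simp only [gap, tau_per n z i, this]

lemma gap_compact (n : ℕ) (z : ℕ → ℝ) (i : ℕ) : IsCompact (gap n z i) := by
  refine (isCompact_Icc (a := -2) (b := 2)).of_isClosed_subset ?_ (fun x hx => abs_le.1 hx.1)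
  simp only [gap, ofPred_and, ofPred_forall]
  refine (isClosed_le continuous_abs continuous_const).inter (IsClosed.inter ?_ ?_)
  · exact isClosed_iInter fun k => isClosed_iInter fun _ =>
      isClosed_le continuous_const (by fun_prop)
  · exact isClosed_iInter fun k => isClosed_iInter fun l => isClosed_iInter fun _ =>
      isClosed_iInter fun _ => isClosed_iInter fun _ => isClosed_le (by fun_prop) continuous_const

lemma gap_ord (n : ℕ) (z : ℕ → ℝ) (i : ℕ) : OrdConnected (gap n z i) := by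
  refine ⟨fun x hx y hy w hw => ⟨?_, fun k hk => ?_, fun k l hk hl h => ?_⟩⟩
  · rw [abs_le]; exact ⟨(abs_le.1 hx.1).1.trans hw.1, hw.2.trans (abs_le.1 hy.1).2⟩
  · have h1 := hx.2.1 k hk
    have h2 := hy.2.1 k hk
    have := hw.1; have := hw.2
    rcases tau_cases n z i with h | h <;> rw [h] at h1 h2 ⊢ <;> linarith
  · have h1 := hx.2.2 k l hk hl h
    have h2 := hy.2.2 k l hk hl h
    have := hw.1; have := hw.2
    rcases tau_cases n z i with h | h <;> rw [h] at h1 h2 ⊢ <;> linarith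

/-- The hypotheses on the orbit. -/
structure Orb (c : ℝ) (z : ℕ → ℝ) (N n : ℕ) : Prop where
  hc : -2 ≤ c
  bd : ∀ k, |z k| ≤ 2
  z0 : z 0 = c
  step : ∀ k, z (k + 1) = q c (z k)
  eq_iff : ∀ k l, z k = z l ↔ k ≡ l [MOD N]
  crit : z (N - 1) = 0
  dvd : n ∣ N
  lt : n < N
  odd : Odd n
  blocks : Blocks n z

variable {c : ℝ} {z : ℕ → ℝ} {N n : ℕ}

lemma Orb.npos (h : Orb c z N n) : 0 < n := h.odd.pos

lemma Orb.ge (h : Orb c z N n) (k : ℕ) : c ≤ z k := by
  cases k with
  | zero => rw [h.z0]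
  | succ k => rw [h.step, q]; nlinarith [sq_nonneg (z k)]

lemma Orb.mod_of_eq (h : Orb c z N n) {k l : ℕ} (e : z k = z l) : k ≡ l [MOD n] :=
  ((h.eq_iff k l).1 e).of_dvd h.dvd

lemma Orb.crit_mod (h : Orb c z N n) {i : ℕ} : N - 1 ≡ i [MOD n] ↔ n ∣ i + 1 := by
  have hN : N - 1 + 1 = N := by have := h.lt; omega
  rw [← modEq_succ, hN, ← Nat.modEq_zero_iff_dvd]
  have : N ≡ 0 [MOD n] := Nat.modEq_zero_iff_dvd.2 h.dvd
  exact ⟨fun e => e.symm.trans this, fun e => this.trans e.symm⟩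

lemma Orb.between (h : Orb c z N n) {t : ℝ} (ht : t = 1 ∨ t = -1) {i k l r : ℕ}
    (hk : k ≡ i [MOD n]) (hl : l ≡ i [MOD n]) (h1 : t * z k ≤ t * z r) (h2 : t * z r ≤ t * z l) :
    r ≡ i [MOD n] := by
  rcases ht with rfl | rfl
  · exact (h.blocks k l r (hk.trans hl.symm) (by linarith) (by linarith)).trans hk
  · exact (h.blocks l k r (hl.trans hk.symm) (by linarith) (by linarith)).trans hl

lemma Orb.sign (h : Orb c z N n) {i k : ℕ} (hi : ¬ n ∣ i + 1) (hk : k ≡ i [MOD n]) :
    0 < sig n z i * z k := by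
  have hm : i % n ≡ i [MOD n] := Nat.mod_modEq i n
  simp only [sig, hi, if_false]
  by_contra hcon
  apply hi
  rw [← h.crit_mod]
  have h0 : 0 ≤ sg (z (i % n)) * z (i % n) := by
    unfold sg; split_ifs with e
    · linarith
    · linarith
  exact h.between (sg_cases (z (i % n))) hk hm (by rw [h.crit]; linarith)
    (by rw [h.crit]; linarith)

lemma Orb.ext (h : Orb c z N n) (i : ℕ) (t : ℝ) :
    ∃ l, l ≡ i [MOD n] ∧ ∀ k, k ≡ i [MOD n] → t * z k ≤ t * z l := by
  have hN : 0 < N := by have := h.lt; omega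
  have hmod : ∀ k, k % N ≡ k [MOD n] := fun k => (Nat.mod_modEq k N).of_dvd h.dvd
  obtain ⟨l, hl, hmax⟩ := Finset.exists_max_image
    ((Finset.range N).filter fun l => l ≡ i [MOD n]) (fun l => t * z l)
    ⟨i % N, by simp [Nat.mod_lt _ hN, hmod i]⟩
  refine ⟨l, (Finset.mem_filter.1 hl).2, fun k hk => ?_⟩
  have := hmax (k % N) (by simp [Nat.mod_lt _ hN, (hmod k).trans hk])
  rwa [(h.eq_iff _ _).2 (Nat.mod_modEq k N)] at this

lemma Orb.gap_nonempty (h : Orb c z N n) (i : ℕ) : (gap n z i).Nonempty := by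
  obtain ⟨l, hl, hmax⟩ := h.ext i (tau n z i)
  refine ⟨z l, h.bd l, hmax, fun k l' hk hl' hlt => ?_⟩
  by_contra hcon
  exact hk (h.between (tau_cases n z i) hl' hl hlt.le (not_le.1 hcon).le)

lemma Orb.gap_ge (h : Orb c z N n) {i : ℕ} {x : ℝ} (hx : x ∈ gap n z i) : c ≤ x := by
  rcases tau_cases n z i with e | e
  · have := hx.2.1 i (Nat.ModEq.refl i)
    rw [e] at this
    linarith [h.ge i]
  · have hi : ¬ 0 ≡ i [MOD n] := by
      intro h0
      rw [tau_dvd n z (Nat.modEq_zero_iff_dvd.1 h0.symm)] at e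
      norm_num at e
    have hne : z 0 ≠ z i := fun e => hi (h.mod_of_eq e)
    have hlt : z 0 < z i := lt_of_le_of_ne (by rw [h.z0]; exact h.ge i) hne
    have := hx.2.2 0 i hi (Nat.ModEq.refl i) (by rw [e]; linarith)
    rw [e, h.z0] at this
    linarith

lemma Orb.gap_back (h : Orb c z N n) {i : ℕ} {x : ℝ} (hx : x ∈ gap n z (i + 1)) :
    sig n z i * √(x - c) ∈ gap n z i := by
  have hxc := h.gap_ge hx
  set w := sig n z i * √(x - c) with hw
  have hs0 := Real.sqrt_nonneg (x - c)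
  have hσ2 : sig n z i * sig n z i = 1 := by rcases sig_cases n z i with e | e <;> simp [e]
  have hσw : sig n z i * w = √(x - c) := by rw [hw, ← mul_assoc, hσ2, one_mul]
  have hw2 : x = w ^ 2 + c := by
    have : w ^ 2 = (sig n z i * sig n z i) * √(x - c) ^ 2 := by rw [hw]; ring
    rw [this, hσ2, Real.sq_sqrt (by linarith)]; ring
  have hτ := tau_succ n z i
  refine ⟨?_, fun k hk => ?_, fun k l hk hl hlt => ?_⟩
  · have h1 : √(x - c) ≤ 2 := by
      rw [Real.sqrt_le_iff]
      exact ⟨by norm_num, by linarith [(abs_le.1 hx.1).2, h.hc]⟩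
    rw [hw, abs_le]
    rcases sig_cases n z i with e | e <;> rw [e] <;> constructor <;> linarith
  · have h1 := hx.2.1 (k + 1) (modEq_succ.2 hk)
    rw [h.step, q, hτ, hw2] at h1
    by_cases hi : n ∣ i + 1
    · have e : sig n z i = tau n z i := by simp [sig, hi]
      rw [e] at hσw hσ2
      rw [e, hσ2] at h1
      have h2 : (tau n z i * z k) ^ 2 ≤ (tau n z i * w) ^ 2 := by
        rw [mul_pow, mul_pow, pow_two (tau n z i), hσ2]; linarith
      exact (abs_le_of_sq_le_sq' h2 (by rw [hσw]; exact hs0)).2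
    · have h2 := h.sign hi hk
      have h3 : 0 < sig n z i * (z k + w) := by rw [mul_add, hσw]; linarith
      by_contra hcon
      have := mul_pos (sub_pos.2 (not_le.1 hcon)) h3
      nlinarith
  · have hk1 : ¬ k + 1 ≡ i + 1 [MOD n] := fun e => hk (modEq_succ.1 e)
    have fin : 0 ≤ sig n z i * z k →
        tau n z (i + 1) * x ≤ tau n z (i + 1) * z (k + 1) → tau n z i * w ≤ tau n z i * z k := by
      intro h2 h1
      rw [h.step, q, hτ, hw2] at h1
      by_contra hcon
      have hlt' := not_le.1 hcon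
      have h3 : 0 < sig n z i * (z k + w) := by
        rw [mul_add, hσw]
        rcases (add_nonneg h2 hs0).lt_or_eq with e | e
        · exact e
        · exfalso
          have e1 : sig n z i * z k = 0 := by linarith
          have e2 : √(x - c) = 0 := by linarith
          have e3 : z k = 0 := by
            rcases sig_cases n z i with e | e <;> rw [e] at e1 <;> linarith
          rw [hw, e2, e3] at hlt'
          simp at hlt'
      have := mul_pos (sub_pos.2 hlt') h3
      nlinarith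
    by_cases hi : n ∣ i + 1
    · have e : sig n z i = tau n z i := by simp [sig, hi]
      have h0 : 0 ≤ tau n z i * z k := by
        by_contra hcon
        exact hk (h.between (tau_cases n z i) hl (h.crit_mod.2 hi) hlt.le
          (by rw [h.crit]; linarith))
      refine fin (by rwa [e]) ?_
      have h0i : 0 ≡ i + 1 [MOD n] := (Nat.modEq_zero_iff_dvd.2 hi).symm
      refine hx.2.2 (k + 1) 0 hk1 h0i ?_
      rw [tau_dvd n z hi, one_mul, one_mul]
      refine lt_of_le_of_ne (by rw [h.z0]; exact h.ge _) (fun e => hk1 ?_)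
      exact (h.mod_of_eq e).symm.trans h0i
    · have h2 := h.sign hi hl
      by_cases h3 : 0 ≤ sig n z i * z k
      · refine fin h3 (hx.2.2 (k + 1) (l + 1) hk1 (modEq_succ.2 hl) ?_)
        rw [h.step, h.step, q, q, hτ]
        have := mul_pos (sub_pos.2 hlt) (show 0 < sig n z i * (z k + z l) by linarith)
        nlinarith
      · rcases sig_cases n z i with e | e <;> rcases tau_cases n z i with e' | e' <;>
          rw [e] at h2 h3 hσw <;> rw [e'] at hlt ⊢ <;> linarith

/-- The backward orbit along the inverse branches. -/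
noncomputable def bk (c : ℝ) (n : ℕ) (z : ℕ → ℝ) (x : ℝ) : ℕ → ℝ
  | 0 => x
  | r + 1 => sig n z (n - (r + 1)) * √(bk c n z x r - c)

lemma Orb.exists_foot (h : Orb c z N n) : ∃ x : ℕ → ℝ, Periodic x n ∧
    (∀ i, q c (x i) = x (i + 1)) ∧ ∀ i, x i ∈ gap n z i ∧ 0 ≤ sig n z i * x i := by
  have hcont : ∀ r, Continuous fun x => bk c n z x r := by
    intro r
    induction r with
    | zero => exact continuous_id
    | succ r ih => exact continuous_const.mul ((ih.sub continuous_const).sqrt)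
  have hmem : ∀ x ∈ gap n z 0, ∀ r, r ≤ n → bk c n z x r ∈ gap n z (n - r) := by
    intro x hx r
    induction r with
    | zero => intro _; rw [Nat.sub_zero, (gap_per n z).eq]; exact hx
    | succ r ih =>
      intro hr
      have := ih (by omega)
      rw [show n - r = n - (r + 1) + 1 by omega] at this
      exact h.gap_back this
  have hI := eq_Icc_of_connected_compact
    ⟨h.gap_nonempty 0, (gap_ord n z 0).isPreconnected⟩ (gap_compact n z 0)
  have hle : sInf (gap n z 0) ≤ sSup (gap n z 0) := by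
    obtain ⟨x, hx⟩ := h.gap_nonempty 0
    rw [hI] at hx; exact hx.1.trans hx.2
  obtain ⟨x0, hx0, hfix⟩ := exists_mem_Icc_isFixedPt_of_mapsTo (hcont n).continuousOn hle
    (by rw [← hI]; intro x hx; simpa using hmem x hx n le_rfl)
  rw [← hI] at hx0
  have hfix' : bk c n z x0 n = x0 := hfix
  have hit : ∀ i, i ≤ n → (q c)^[i] x0 = bk c n z x0 (n - i) := by
    intro i
    induction i with
    | zero => intro _; simp [hfix']
    | succ i ih =>
      intro hi
      have hσ2 : sig n z (n - (n - (i + 1) + 1)) ^ 2 = 1 := by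
        rcases sig_cases n z (n - (n - (i + 1) + 1)) with e | e <;> simp [e]
      rw [iterate_succ_apply', ih (by omega), show n - i = n - (i + 1) + 1 by omega, bk, q,
        mul_pow, hσ2, Real.sq_sqrt (by linarith [h.gap_ge (hmem x0 hx0 (n - (i + 1)) (by omega))])]
      ring
  have hper : Periodic (fun i => (q c)^[i] x0) n := by
    intro i
    simp only [iterate_add_apply, hit n le_rfl, Nat.sub_self, bk]
  refine ⟨fun i => (q c)^[i] x0, hper, fun i => (iterate_succ_apply' _ _ _).symm, fun i => ?_⟩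
  have hi : i % n < n := Nat.mod_lt _ h.npos
  have hp : (q c)^[i % n] x0 = (q c)^[i] x0 := hper.map_mod_nat i
  beta_reduce
  rw [← hp, ← (gap_per n z).map_mod_nat i, ← (sig_per n z).map_mod_nat i]
  set j := i % n
  simp only [hit j hi.le]
  constructor
  · have := hmem x0 hx0 (n - j) (by omega)
    rwa [show n - (n - j) = j by omega] at this
  · rw [show n - j = n - (j + 1) + 1 by omega, bk, show n - (n - (j + 1) + 1) = j by omega,
      ← mul_assoc]
    exact mul_nonneg (mul_self_nonneg _) (Real.sqrt_nonneg _)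

lemma mem_uIcc_sign {t a x r : ℝ} (ht : t = 1 ∨ t = -1) (h : t * a ≤ t * x) :
    r ∈ uIcc a x ↔ t * a ≤ t * r ∧ t * r ≤ t * x := by
  rcases ht with rfl | rfl
  · rw [uIcc_of_le (by linarith), mem_Icc]; simp
  · rw [uIcc_of_ge (by linarith), mem_Icc]; simp [and_comm]

lemma three_int {a1 x1 a2 x2 a3 x3 : ℝ} (h12 : a1 ∉ uIcc a2 x2) (h21 : a2 ∉ uIcc a1 x1)
    (h13 : a1 ∉ uIcc a3 x3) (h31 : a3 ∉ uIcc a1 x1) (h23 : a2 ∉ uIcc a3 x3)
    (h32 : a3 ∉ uIcc a2 x2) {u v : ℝ} (hu1 : u ∈ uIcc a1 x1) (hu2 : u ∈ uIcc a2 x2)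
    (hv2 : v ∈ uIcc a2 x2) (hv3 : v ∈ uIcc a3 x3) : False := by
  simp only [mem_uIcc, not_or, not_and_or, not_le] at *
  rcases h12 with ⟨h | h, h' | h'⟩ <;> rcases h21 with ⟨g | g, g' | g'⟩ <;> (try linarith) <;>
  rcases hu1 with ⟨_, _⟩ | ⟨_, _⟩ <;> (try linarith) <;>
  rcases hu2 with ⟨_, _⟩ | ⟨_, _⟩ <;> (try linarith) <;>
  rcases h23 with ⟨k | k, k' | k'⟩ <;>
  rcases h32 with ⟨l | l, l' | l'⟩ <;> (try linarith) <;>
  rcases hv2 with ⟨_, _⟩ | ⟨_, _⟩ <;> (try linarith) <;>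
  rcases hv3 with ⟨_, _⟩ | ⟨_, _⟩ <;> (try linarith) <;>
  rcases h13 with ⟨m | m, m' | m'⟩ <;> (try linarith) <;>
  rcases h31 with ⟨o | o, o' | o'⟩ <;> linarith

theorem Orb.level (h : Orb c z N n) : ∃ a x τ, Level c z n a x τ := by
  obtain ⟨x, px, hfoot, hx⟩ := h.exists_foot
  choose A hA hAmax using h.ext
  let a : ℕ → ℝ := fun i => z (A (i % n) (-tau n z i))
  have hAi : ∀ i, A (i % n) (-tau n z i) ≡ i [MOD n] := fun i =>
    (hA _ _).trans (Nat.mod_modEq i n)
  have hmin : ∀ i k, k ≡ i [MOD n] → tau n z i * a i ≤ tau n z i * z k := by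
    intro i k hk
    have := hAmax (i % n) (-tau n z i) k (hk.trans (Nat.mod_modEq i n).symm)
    simp only [a]; linarith
  have hax : ∀ i, tau n z i * a i ≤ tau n z i * x i := fun i => (hx i).1.2.1 _ (hAi i)
  have hne : ∀ i k, x i ≠ z k := by
    intro i k e
    have h1 : ∀ r, x (i + r) = z (k + r) := by
      intro r
      induction r with
      | zero => exact e
      | succ r ih => rw [← add_assoc, ← add_assoc, ← hfoot, ih, h.step]
    have h2 : z (k + n) = z (k + 0) := by rw [← h1, ← h1, px i, add_zero]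
    have h3 := Nat.ModEq.add_left_cancel' k ((h.eq_iff _ _).1 h2)
    have := Nat.le_of_dvd h.npos (Nat.modEq_zero_iff_dvd.1 h3)
    have := h.lt
    omega
  have hxne : ∀ i, x i ≠ 0 := fun i => by rw [← h.crit]; exact hne i _
  have hmem : ∀ i r, r ∈ uIcc (a i) (x i) ↔
      tau n z i * a i ≤ tau n z i * r ∧ tau n z i * r ≤ tau n z i * x i := fun i r =>
    mem_uIcc_sign (tau_cases n z i) (hax i)
  have hmaps : ∀ i, MapsTo (q c) (uIcc (a i) (x i)) (uIcc (a (i + 1)) (x (i + 1))) := by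
    intro i r hr
    rw [hmem] at hr ⊢
    have hτ := tau_succ n z i
    have h1 := hmin (i + 1) _ (modEq_succ.2 (hAi i))
    have h2 := (hx (i + 1)).1.2.1 _ (modEq_succ.2 (hAi i))
    rw [h.step] at h1 h2
    change _ ≤ _ * q c (a i) at h1
    change _ * q c (a i) ≤ _ at h2
    rw [← hfoot] at h2 ⊢
    have h3 := (hx i).2
    by_cases hi : n ∣ i + 1
    · have e : sig n z i = tau n z i := by simp [sig, hi]
      have h4 := hmin (i + 1) 0 (Nat.modEq_zero_iff_dvd.2 hi).symm
      rw [tau_dvd n z hi, h.z0] at *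
      simp only [q] at h2 ⊢
      rw [e] at h3
      obtain ⟨hr1, hr2⟩ := hr
      constructor
      · nlinarith [sq_nonneg r]
      · rcases tau_cases n z i with e' | e' <;> rw [e'] at hr1 hr2 h3
        · have : -x i ≤ a i := (abs_le_of_sq_le_sq' (by linarith) (by linarith)).1
          nlinarith
        · have : a i ≤ -x i :=
            (abs_le_of_sq_le_sq' (b := -x i) (by rw [neg_sq]; linarith) (by linarith)).2
          nlinarith
    · have h4 : 0 < sig n z i * a i := h.sign hi (hAi i)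
      obtain ⟨hr1, hr2⟩ := hr
      have h5 : 0 ≤ sig n z i * r := by
        rcases sig_cases n z i with e | e <;> rcases tau_cases n z i with e' | e' <;>
          rw [e] at h3 h4 ⊢ <;> rw [e'] at hr1 hr2 <;> linarith
      rw [hτ] at h1 ⊢
      simp only [q] at h1 ⊢
      constructor
      · have := mul_nonneg (sub_nonneg.2 hr1) (show 0 ≤ sig n z i * (r + a i) by linarith)
        nlinarith
      · have := mul_nonneg (sub_nonneg.2 hr2) (show 0 ≤ sig n z i * (r + x i) by linarith)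
        nlinarith
  have hF1 : ∀ i l, ¬ l ≡ i [MOD n] → a l ∉ uIcc (a i) (x i) := by
    intro i l hl hm
    rw [hmem] at hm
    have hl' : ¬ A (l % n) (-tau n z l) ≡ i [MOD n] := fun e => hl ((hAi l).symm.trans e)
    have hlt : tau n z i * a i < tau n z i * a l := by
      refine lt_of_le_of_ne hm.1 (fun e => hl' ?_)
      have : a i = a l := by rcases tau_cases n z i with e' | e' <;> rw [e'] at e <;> linarith
      exact (h.mod_of_eq this).symm.trans (hAi i)
    have := (hx i).1.2.2 _ _ hl' (hAi i) hlt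
    apply hne i (A (l % n) (-tau n z l))
    have e : tau n z i * x i = tau n z i * a l := le_antisymm this hm.2
    change x i = a l
    rcases tau_cases n z i with e' | e' <;> rw [e'] at e <;> linarith
  have hdisj : ∀ i d, ¬ d ≡ 0 [MOD n] →
      Disjoint (uIcc (a i) (x i)) (uIcc (a (i + d)) (x (i + d))) := by
    intro i d hd
    rw [Set.disjoint_left]
    intro u hu1 hu2
    have hit : ∀ r, (q c)^[r] u ∈ uIcc (a (i + r)) (x (i + r)) ∧
        (q c)^[r] u ∈ uIcc (a (i + d + r)) (x (i + d + r)) := by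
      intro r
      induction r with
      | zero => exact ⟨hu1, hu2⟩
      | succ r ih =>
        rw [iterate_succ_apply']
        exact ⟨hmaps _ ih.1, hmaps _ ih.2⟩
    have n1 : ∀ j, ¬ j + d ≡ j [MOD n] := fun j e =>
      hd (Nat.ModEq.add_left_cancel' j (by simpa using e))
    have n2 : ¬ i + d + d ≡ i [MOD n] := by
      intro e
      have e' : 2 * d ≡ 0 [MOD n] :=
        Nat.ModEq.add_left_cancel' i (by rw [two_mul, ← add_assoc]; simpa using e)
      apply hd
      rw [Nat.modEq_zero_iff_dvd] at e' ⊢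
      exact (Nat.Coprime.dvd_of_dvd_mul_left (Nat.coprime_two_right.2 h.odd) e')
    exact three_int (hF1 _ _ fun e => n1 i e.symm) (hF1 _ _ (n1 i))
      (hF1 _ _ fun e => n2 e.symm) (hF1 _ _ n2) (hF1 _ _ fun e => n1 (i + d) e.symm)
      (hF1 _ _ (n1 (i + d))) hu1 hu2 (hit d).1 (hit d).2
  refine ⟨a, x, tau n z, tau_cases n z, fun i => ?_, px, tau_per n z, fun i => ⟨_, rfl⟩, hne,
    fun k => ?_, hmaps, hfoot, fun i => ?_, fun i l hil => ?_⟩
  · simp only [a, tau_per n z i, Nat.add_mod_right]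
  · rw [hmem]; exact ⟨hmin k k (Nat.ModEq.refl k), (hx k).1.2.1 k (Nat.ModEq.refl k)⟩
  · rw [tau_succ]
    congr 1
    have h3 := (hx i).2
    rcases lt_or_gt_of_ne (hxne i) with e | e
    · rw [sg_neg e.le]
      rcases sig_cases n z i with e' | e'
      · rw [e'] at h3; linarith
      · exact e'
    · rw [sg_pos e]
      rcases sig_cases n z i with e' | e'
      · exact e'
      · rw [e'] at h3; linarith
  · rcases le_total i l with e | e
    · obtain ⟨d, rfl⟩ := Nat.exists_eq_add_of_le e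
      exact hdisj i d fun e' => hil (by simpa using (e'.add_left i).symm)
    · obtain ⟨d, rfl⟩ := Nat.exists_eq_add_of_le e
      exact (hdisj l d fun e' => hil (by simpa using e'.add_left l)).symm

theorem exists_levels (m : ℕ) (hm : 1 ≤ m) : ∃ (c : ℝ) (N : ℕ), 0 < N ∧
    (q c)^[N - 1] c = 0 ∧ ∀ j, j < m → ∃ a x τ, Level c (fun k => (q c)^[k] c) (3 ^ j) a x τ := by
  obtain ⟨c, h1, hb, heq, hB⟩ := exists_poly m hm
  have hz : ∀ k, (q c)^[k] c = (q c)^[k + 1] 0 := fun k => by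
    rw [iterate_succ_apply]; simp [q]
  have hN : 0 < 3 ^ m := by positivity
  have hcrit : (q c)^[3 ^ m - 1] c = 0 := by
    rw [hz, show 3 ^ m - 1 + 1 = 3 ^ m by omega]
    exact (heq (3 ^ m) 0).2 (by simp [Nat.ModEq])
  refine ⟨c, 3 ^ m, hN, hcrit, fun j hj => Orb.level (N := 3 ^ m) ⟨h1.le, fun k => ?_, rfl,
    fun k => iterate_succ_apply' _ _ _, fun k l => ?_, hcrit, pow_dvd_pow _ hj.le,
    Nat.pow_lt_pow_right (by norm_num) hj, Odd.pow (by decide), fun k l r e1 e2 e3 => ?_⟩⟩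
  · rw [hz]; exact hb _
  · rw [hz, hz, heq, modEq_succ]
  · simp only [hz] at e2 e3
    exact modEq_succ.1 (hB j hj.le (k + 1) (l + 1) (r + 1) (modEq_succ.2 e1) e2 e3)

end Pool.Agent.MP_a0c272_an

end

section

/-!
The tree of one renormalisation level.
-/

namespace Pool.Agent.MP_a0c272_an

open Set Topology Function unitInterval Filter OnePoint

lemma periodic_finite {α : Type*} {f : ℕ → α} {n : ℕ} (hn : 0 < n) (h : Periodic f n) :
    (range f).Finite := by
  refine ((finite_lt_nat n).image f).subset ?_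
  rintro _ ⟨k, rfl⟩
  exact ⟨k % n, Nat.mod_lt _ hn, h.map_mod_nat k⟩

lemma sg_mul_abs (x : ℝ) : sg x * |x| = x := by
  unfold sg; split_ifs with h
  · rw [abs_of_pos h, one_mul]
  · rw [abs_of_nonpos (not_lt.1 h)]; ring

variable {c : ℝ} {z : ℕ → ℝ} {n : ℕ} {a x τ : ℕ → ℝ}

/-- The arcs of a level. -/
noncomputable def Level.arcs (h : Level c z n a x τ) (i : Fin n) : C(I, Sph) :=
  ⟨arcF (a i) (x i) (τ i), continuous_arcF _ _ (h.sgn i)⟩

lemma Level.star (h : Level c z n a x τ) (hn : 0 < n) : IsStar h.arcs ∞ := by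
  have hre : ∀ i y, y ∈ range (arcF (a i) (x i) (τ i)) →
      y = ∞ ∨ ∃ w : ℂ, y = w ∧ w.re ∈ uIcc (a i) (x i) := by
    intro i y hy
    rcases mem_range_arcF.1 hy with e | ⟨r, hr, e⟩ | ⟨v, -, e⟩
    · exact Or.inl e
    · exact Or.inr ⟨r, e, hr⟩
    · exact Or.inr ⟨_, e, right_mem_uIcc⟩
  refine ⟨hn, fun i => arcF_inj ?_ (h.sgn i), fun i => arcF_one _ _ _, fun i j s t e => ?_⟩
  · obtain ⟨k, hk⟩ := h.a_mem i
    rw [hk]; exact (h.x_ne i k).symm
  · by_cases hij : i = j
    · exact Or.inl hij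
    right
    rcases hre i _ ⟨s, rfl⟩ with e1 | ⟨w, e1, hw⟩
    · exact e1
    rcases hre j _ ⟨t, rfl⟩ with e2 | ⟨w', e2, hw'⟩
    · exact e.trans e2
    have : w = w' := coe_injective (e1.symm.trans (e.trans e2))
    subst this
    exact absurd hw' (disjoint_left.1
      (h.disj i j fun e' => hij (Fin.ext (e'.eq_of_lt_of_lt i.2 j.2))) hw)

lemma Level.sub (h : Level c z n a x τ) (hn : 0 < n) (i : ℕ) :
    range (arcF (a i) (x i) (τ i)) ⊆ ⋃ j, range (h.arcs j) := by
  rw [← h.pa.map_mod_nat i, ← h.px.map_mod_nat i, ← h.pτ.map_mod_nat i]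
  exact subset_iUnion (fun j => range (h.arcs j)) ⟨i % n, Nat.mod_lt _ hn⟩

lemma Level.invariant (h : Level c z n a x τ) (hn : 0 < n) {δ : ℝ} (hδ : 0 < δ)
    (hx : ∀ i, δ ≤ |x i|) :
    MapsTo (fun y => quad c (Psi hδ (1, y))) (⋃ j, range (h.arcs j)) (⋃ j, range (h.arcs j)) := by
  intro y hy
  obtain ⟨i, hi⟩ := mem_iUnion.1 hy
  refine h.sub hn (i + 1) (mem_range_arcF.2 ?_)
  rcases mem_range_arcF.1 hi with rfl | ⟨r, hr, rfl⟩ | ⟨v, hv, rfl⟩
  · exact Or.inl rfl
  · exact Or.inr (Or.inl ⟨q c r, h.maps i hr, by simp only [Psi_real, quad_real, q]⟩)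
  · obtain ⟨ρ, hρ, e⟩ := quad_Psi_leg hδ c (hx i) (τ i * v)
    refine Or.inr (Or.inr ⟨ρ * |x i| * v, by positivity, ?_⟩)
    simp only [e]
    congr 2
    · exact h.foot i
    · rw [h.side]
      conv_lhs => rw [← sg_mul_abs (x i)]
      ring

lemma Level.tree (h : Level c z n a x τ) (hn : 0 < n) (hfin : (range z).Finite) :
    ∃ G : Graph, (G.V : Set Sph) = insert ∞ (range fun k => ((z k : ℂ) : Sph)) ∧
      G.carrier = ⋃ j, range (h.arcs j) := by
  refine (h.star hn).graph (Finite.insert _ ?_) (Or.inl rfl) (fun i => ?_) ?_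
  · exact (hfin.image fun r : ℝ => ((r : ℂ) : Sph)).subset (by
      rintro _ ⟨k, rfl⟩; exact ⟨_, ⟨k, rfl⟩, rfl⟩)
  · obtain ⟨k, hk⟩ := h.a_mem i
    exact Or.inr ⟨k, by beta_reduce; rw [← hk]; exact (arcF_zero _ _ _).symm⟩
  · rintro _ (rfl | ⟨k, rfl⟩)
    · exact h.sub hn 0 (mem_range_arcF.2 (Or.inl rfl))
    · exact h.sub hn k (mem_range_arcF.2 (Or.inr (Or.inl ⟨_, h.cover k, rfl⟩)))

lemma HomeoRel.symm {P : Set Sph} {G H : Graph} (h : HomeoRel P G H) (hP : P ⊆ G.carrier) :
    HomeoRel P H G := by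
  obtain ⟨f, hf⟩ := h
  refine ⟨f.symm, fun y hy => ?_⟩
  have : f ⟨y, hP hy⟩ = y := Subtype.ext (hf _ hy)
  conv_lhs => rw [← this, Homeomorph.symm_apply_apply]

lemma Isotopic.homeoRel {P : Set Sph} {G H : Graph} (h : Isotopic P G H) : HomeoRel P G H := by
  obtain ⟨Ψ, ⟨h1, -, h3⟩, h4⟩ := h
  refine ⟨((h1 1).homeomorph.image G.carrier).trans (Homeomorph.setCongr h4), fun y hy => ?_⟩
  exact h3 1 y hy

lemma card_le_of_homeoRel {P : Set Sph} {G H : Graph} {n n' : ℕ} {γ : Fin n → C(I, Sph)}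
    {γ' : Fin n' → C(I, Sph)} (h : IsStar γ ∞) (h' : IsStar γ' ∞) (hP : ∞ ∈ P)
    (hG : G.carrier = ⋃ i, range (γ i)) (hH : H.carrier = ⋃ i, range (γ' i))
    (hr : HomeoRel P G H) : n' ≤ n := by
  obtain ⟨f, hf⟩ := hr
  let g := (Homeomorph.setCongr hG.symm).trans f
  refine h.card_le h' (fun y => (g y : Sph)) (continuous_subtype_val.comp g.continuous)
    (Subtype.val_injective.comp g.injective) ?_ fun y hy => ?_
  · rw [← hH]
    exact (g.surjective.range_comp _).trans Subtype.range_coe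
  · exact (hf ⟨y, hG.ge y.2⟩ (by change (y : Sph) ∈ P; rw [hy]; exact hP)).trans hy

end Pool.Agent.MP_a0c272_an

end
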